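import Pool.Agent.Helper49.MM.Tight

set_option autoImplicit false

/-! Existence of extended metastates. -/

namespace Pool.Agent.H49MM

open Pool.Agent.Helper60.TJ Pool.Agent.Helper61.MM Pool.Agent.H49WL MeasureTheory Filter Topology
open scoped symmDiff ENNReal NNReal

/-- limit of the averaged laws -/
structure LimQ (lam : Measure ℝ) (U : Ultrafilter ℕ) (Q : Measure (Env × Vl)) : Prop where
  pr : IsProbabilityMeasure Q
  le : (U : Filter ℕ) ≤ atTop
  lim : Lim (mN lam) U Q

theorem exists_LimQ {lam : Measure ℝ} (hl : Wgt lam) : ∃ U Q, LimQ lam U Q := by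
  have := hl.prob
  obtain ⟨Q, hQ, U, hU, hL⟩ := exists_lim (mN lam) (mN_prob lam) (tight_mN lam hl.pos hl.atl)
  exact ⟨U, Q, hQ, hU, hL⟩

section

variable {lam : Measure ℝ} {U : Ultrafilter ℕ} {Q : Measure (Env × Vl)}

theorem ae_closed (hl : Wgt lam) (h : LimQ lam U Q) {F : Set (Env × Vl)} (hF : IsClosed F) (r : ℕ)
    (hB : ∀ B : Finset Vx, box r ⊆ B → ∀ ω : Env, Gd ω → (ω, sT B ω) ∈ F) :
    ∀ᵐ p ∂Q, p ∈ F := by
  have := hl.prob
  have := h.pr
  refine h.lim.ae_closed' (mN_prob lam) hF ?_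
  filter_upwards [h.le (eventually_ge_atTop r)] with n hn
  refine mN_ae lam hF.measurableSet fun u hu => ?_
  filter_upwards [ae_Gd lam hl.pos hl.atl] with ω hω
  exact hB _ (box_subset_vol hn hu) ω hω

theorem lim_fst (hl : Wgt lam) (h : LimQ lam U Q) : Q.map Prod.fst = PE lam := by
  have := hl.prob
  have := h.pr
  have h1 := h.lim.map (f := Prod.fst) continuous_fst measurable_fst
  have h2 : ∀ n, (mN lam n).map Prod.fst = PE lam := by
    intro n
    ext A hA
    rw [Measure.map_apply measurable_fst hA, mN_apply]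
    have h3 : ∀ u ∈ box n, lw lam (vol n u) (Prod.fst ⁻¹' A) = PE lam A := by
      intro u _
      unfold lw
      rw [Measure.map_apply (measurable_gr _) (measurable_fst hA)]
      rfl
    rw [Finset.sum_congr rfl h3, Finset.sum_const, nsmul_eq_mul, ← mul_assoc,
      ENNReal.inv_mul_cancel (card_ne n) (card_ne_top n), one_mul]
  simp only [h2] at h1
  have h4 : Lim (fun _ : ℕ => PE lam) U (PE lam) := fun f => tendsto_const_nhds
  have : IsProbabilityMeasure (Q.map Prod.fst) :=
    Measure.isProbabilityMeasure_map measurable_fst.aemeasurable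
  exact h1.unique h4

theorem lim_act (hl : Wgt lam) (h : LimQ lam U Q) (g : Gm) : MeasurePreserving (aP g) Q Q := by
  have := hl.prob
  have := h.pr
  have hc := continuous_aP g
  refine ⟨hc.measurable, ?_⟩
  have h1 := h.lim.eq_map (f := aP g) (g := id) hc hc.measurable continuous_id measurable_id
    (Eventually.of_forall fun n => by
      rw [mN_map_aP lam n g hc.measurable, Measure.map_id])
  rwa [Measure.map_id] at h1

theorem lim_shift (hl : Wgt lam) (h : LimQ lam U Q) (u : Vx) : MeasurePreserving (shP u) Q Q := by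
  have := hl.prob
  have := h.pr
  have hc := continuous_shP u
  refine ⟨hc.measurable, ?_⟩
  have h1 := h.lim.map (f := shP u) hc hc.measurable
  have h2 : Lim (fun n => (mN lam n).map (shP u)) U Q := by
    refine h.lim.congr (mN_prob lam) ((tendsto_eps u).mono_left h.le) fun n => ?_
    obtain ⟨r, r', h3, h4, h5⟩ := mN_shift lam u hc.measurable n
    refine ⟨r, r', h3, h4.trans ?_, h5.trans ?_⟩
    · gcongr
      exact (card_sdiff_le u n).1
    · gcongr
      exact (card_sdiff_le u n).2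
  have : IsProbabilityMeasure (Q.map (shP u)) :=
    Measure.isProbabilityMeasure_map hc.measurable.aemeasurable
  exact h1.unique h2

/-! ### the deterministic properties -/

theorem ok_pos (hl : Wgt lam) (h : LimQ lam U Q) :
    ∀ᵐ p ∂Q, (∀ e, 0 < (p.1.1 e).1 ∧ 0 < (p.1.1 e).2) ∧ ∀ g, NT (ww g p.1) := by
  have := hl.prob
  have h1 := ae_Gd lam hl.pos hl.atl
  rw [← lim_fst hl h] at h1
  exact ae_of_ae_map measurable_fst.aemeasurable h1

theorem ok_par (hl : Wgt lam) (h : LimQ lam U Q) (g : Gm) (v : Vx) :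
    ∀ᵐ p ∂Q, par (uu p.2 g) v = tt g p.1 v := by
  obtain ⟨r, hr⟩ := exists_box_vx v
  refine ae_closed hl h (F := {p | par (uu p.2 g) v = tt g p.1 v})
    (isClosed_eq (c_par g v) (c_tt g v)) r fun B hB ω hω => ?_
  exact par_UT (hω.uq g) (hr B hB)

theorem ok_en (hl : Wgt lam) (h : LimQ lam U Q) (g : Gm) (C : Finset Ed) (hC : IsCyc C) :
    ∀ᵐ p ∂Q, 0 ≤ en (ww g p.1) (uu p.2 g) C := by
  obtain ⟨r, hr⟩ := exists_box_EV C
  refine ae_closed hl h (F := {p | 0 ≤ en (ww g p.1) (uu p.2 g) C})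
    (isClosed_le continuous_const (c_en g C)) r fun B hB ω hω => ?_
  exact en_UT_nonneg (hω.uq g) (hr B hB) fun v _ => hC v

theorem ok_coc (hl : Wgt lam) (h : LimQ lam U Q) (g : Gm) (D D' : Finset Ed) :
    ∀ᵐ p ∂Q, hh p.2 g (D ∆ D') = hh p.2 g D + hh p.2 (tg g D) D' := by
  refine ae_closed hl h (F := {p | hh p.2 g (D ∆ D') = hh p.2 g D + hh p.2 (tg g D) D'})
    (isClosed_eq (c_hh g _) ((c_hh g _).add (c_hh _ _))) 0 fun B hB ω hω => ?_
  rw [Set.mem_ofPred_eq]
  simp only
  rw [hh_sT, hh_sT, hh_sT, tt_tg, par_ind_symmDiff, ← vx_assoc, ww_tg]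
  ring

theorem ok_le (hl : Wgt lam) (h : LimQ lam U Q) (g : Gm) (D X : Finset Ed)
    (hp : par (ind X) = par (ind D)) :
    ∀ᵐ p ∂Q, hh p.2 g D ≤ en (ww g p.1) (uu p.2 g) X := by
  obtain ⟨r, hr⟩ := exists_box_EV X
  refine ae_closed hl h (F := {p | hh p.2 g D ≤ en (ww g p.1) (uu p.2 g) X})
    (isClosed_le (c_hh g D) (c_en g X)) r fun B hB ω hω => ?_
  exact HT_le_en (hω.uq g) (hr B hB) fun v _ => congrFun hp v

theorem ok_gap (hl : Wgt lam) (h : LimQ lam U Q) (g : Gm) (D X : Finset Ed) (f : Ed)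
    (hp : par (ind X) = par (ind D)) :
    ∀ᵐ p ∂Q, bx (bx (uu p.2 (tg g D)) (uu p.2 g)) (ind X) f = true →
      fx p.2 (tg g D) f ≤ en (ww g p.1) (uu p.2 g) X - hh p.2 g D := by
  obtain ⟨r, hr⟩ := exists_box_EV X
  refine ae_closed hl h (F := {p | bx (bx (uu p.2 (tg g D)) (uu p.2 g)) (ind X) f = true →
      fx p.2 (tg g D) f ≤ en (ww g p.1) (uu p.2 g) X - hh p.2 g D})
    (closed_imp (open_bool (c_bx2 _ _ _ _) _)
      (isClosed_le (c_fx _ _) ((c_en g X).sub (c_hh g D)))) r fun B hB ω hω => ?_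
  intro hf
  rw [uu_sT, uu_sT, tt_tg, ww_tg] at hf
  rw [fx_sT, hh_sT, uu_sT, tt_tg, ww_tg]
  exact gap_UT (hω.uq g) (hr B hB) (fun v _ => congrFun hp v) hf

theorem ok_fpos (hl : Wgt lam) (h : LimQ lam U Q) (g : Gm) (e : Ed) :
    ∀ᵐ p ∂Q, 0 < fx p.2 g e := by
  have := hl.prob
  have := h.pr
  obtain ⟨r, hr⟩ := exists_box_EV {e}
  have h1 : Q {p | fx p.2 g e ≤ 0} ≤ 0 := by
    refine le_of_forall_gt fun s hs => ?_
    obtain ⟨s', hs'1, hs'2⟩ := exists_between hs
    refine lt_of_le_of_lt ?_ hs'2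
    obtain ⟨δ, hδ, hδs⟩ := unif_small (lam := lam) hl.atl hs'1
    set δ' : ℝ := min δ (1 / 2) with hδ'
    have hδ'0 : 0 < δ' := lt_min hδ (by norm_num)
    have hδ's : ∀ c, lam (Metric.closedBall c δ') ≤ s' := fun c =>
      (measure_mono (Metric.closedBall_subset_closedBall (min_le_left _ _))).trans (hδs c)
    have hδ'1 : δ' < 1 := lt_of_le_of_lt (min_le_right _ _) (by norm_num)
    have hO : IsOpen {p : Env × Vl | fx p.2 g e < δ'} := isOpen_lt (c_fx g e) continuous_const
    refine (measure_mono ?_).trans (h.lim.open_le (mN_prob lam) hO (c := s') ?_)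
    · intro p hp
      exact lt_of_le_of_lt hp hδ'0
    · filter_upwards [h.le (eventually_ge_atTop r)] with n hn
      refine mN_le lam fun u hu => ?_
      unfold lw
      rw [Measure.map_apply (measurable_gr _) hO.measurableSet]
      have he : e ∈ EV (vol n u) := hr _ (box_subset_vol hn hu) (Finset.mem_singleton_self e)
      refine (measure_mono ?_).trans (xT_small hδ'1 hδ's he g)
      intro ω hω
      have h5 : xT (vol n u) (ww g ω) (tt g ω) e < δ' := hω
      exact h5.le
  have h2 : ∀ᵐ p ∂Q, ¬ fx p.2 g e ≤ 0 := by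
    rw [ae_iff]
    simpa using h1
  filter_upwards [h2] with p hp using not_le.1 hp

theorem ok_flex (hl : Wgt lam) (h : LimQ lam U Q) (g : Gm) (e : Ed) :
    ∀ᵐ p ∂Q, |ww (sg2 g {e}) p.1 e - ww g p.1 e| < fx p.2 g e →
      uu p.2 (sg2 g {e}) = uu p.2 g := by
  refine ae_closed hl h (F := {p | |ww (sg2 g {e}) p.1 e - ww g p.1 e| < fx p.2 g e →
      uu p.2 (sg2 g {e}) = uu p.2 g})
    (closed_imp (isOpen_lt (((c_ww _ _).sub (c_ww _ _)).abs) (c_fx g e))
      (isClosed_eq (continuous_pi fun f => c_uu _ f) (continuous_pi fun f => c_uu _ f))) 0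
    fun B hB ω hω => ?_
  intro hf
  rw [fx_sT] at hf
  rw [uu_sT, uu_sT, tt_sg2, ww_sg2_single]
  exact UT_upd (hω.uq g) hf

theorem ok_raise (hl : Wgt lam) (h : LimQ lam U Q) (g : Gm) (A A₁ : Finset Ed) (hA : A₁ ⊆ A)
    (D : Finset Ed) : ∀ᵐ p ∂Q, ∀ K : ℝ, (∀ e ∈ A, uu p.2 g e = decide (e ∈ A₁)) → 0 ≤ K →
      (∀ e ∈ A, ww g p.1 e + K < ww (sg2 g A) p.1 e) →
      uu p.2 (tg (sg2 g A) A₁) = bx (uu p.2 g) (ind A₁) ∧
      (hh p.2 g D ≤ hh p.2 (tg (sg2 g A) A₁) D ∧
        (hh p.2 (tg (sg2 g A) A₁) D < hh p.2 g D + K →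
          ∀ e ∈ A, uu p.2 (tg (tg (sg2 g A) A₁) D) e = uu p.2 (tg (sg2 g A) A₁) e)) := by
  obtain ⟨r, hr⟩ := exists_box_EV A₁
  have hcl : IsClosed {p : Env × Vl | ∀ K : ℝ, (∀ e ∈ A, uu p.2 g e = decide (e ∈ A₁)) → 0 ≤ K →
      (∀ e ∈ A, ww g p.1 e + K < ww (sg2 g A) p.1 e) →
      uu p.2 (tg (sg2 g A) A₁) = bx (uu p.2 g) (ind A₁) ∧
      (hh p.2 g D ≤ hh p.2 (tg (sg2 g A) A₁) D ∧
        (hh p.2 (tg (sg2 g A) A₁) D < hh p.2 g D + K →
          ∀ e ∈ A, uu p.2 (tg (tg (sg2 g A) A₁) D) e = uu p.2 (tg (sg2 g A) A₁) e))} := by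
    refine closed_all fun K => closed_imp (open_all_mem fun e => open_bool (c_uu g e) _) ?_
    refine closed_imp isOpen_const (closed_imp (open_all_mem fun e =>
      isOpen_lt ((c_ww g e).add continuous_const) (c_ww _ e)) (closed_and ?_ (closed_and ?_ ?_)))
    · refine isClosed_eq (continuous_pi fun f => c_uu _ f) (continuous_pi fun f => ?_)
      exact (c_bool1 fun b => xor b (ind A₁ f)).comp (c_uu g f)
    · exact isClosed_le (c_hh _ _) (c_hh _ _)
    · refine closed_imp (isOpen_lt (c_hh _ _) ((c_hh _ _).add continuous_const)) ?_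
      refine closed_all fun e => closed_imp isOpen_const ?_
      exact isClosed_eq (c_uu _ e) (c_uu _ e)
  refine ae_closed hl h hcl r fun B hB ω hω => ?_
  intro K hU hK hr2
  have h1 := raise_UT (B := B) (T := tt g ω) (hω.uq g) (hω.uq (sg2 g A))
    (fun e he => ww_sg2_of_notMem he) hr2 hK (fun e _ => hω.pos g e) hA (hr B hB) hU
  have e1 : tt (tg (sg2 g A) A₁) ω = vx (tt g ω) (par (ind A₁)) := by rw [tt_tg, tt_sg2]
  refine ⟨?_, ?_, ?_⟩
  · rw [uu_sT, uu_sT, ww_tg, e1]
    exact h1.1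
  · rw [hh_sT, hh_sT, ww_tg, e1]
    exact (h1.2 (par (ind D))).1
  · intro hlt e he
    rw [hh_sT, hh_sT, ww_tg, e1] at hlt
    rw [uu_sT, uu_sT, ww_tg, ww_tg, tt_tg, e1]
    exact (h1.2 (par (ind D))).2 hlt e he

theorem lim_ok (hl : Wgt lam) (h : LimQ lam U Q) : ∀ᵐ p ∂Q, Ok p.1 p.2 := by
  have a1 := ok_pos hl h
  have a2 : ∀ᵐ p ∂Q, ∀ g v, par (uu p.2 g) v = tt g p.1 v := by
    rw [ae_all_iff]; intro g
    rw [ae_all_iff]; intro v
    exact ok_par hl h g v
  have a3 : ∀ᵐ p ∂Q, ∀ g, ∀ C : Finset Ed, IsCyc C → 0 ≤ en (ww g p.1) (uu p.2 g) C := by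
    rw [ae_all_iff]; intro g
    rw [ae_all_iff]; intro C
    by_cases hC : IsCyc C
    · filter_upwards [ok_en hl h g C hC] with p hp _ using hp
    · exact Eventually.of_forall fun p h => absurd h hC
  have a4 : ∀ᵐ p ∂Q, ∀ g D D', hh p.2 g (D ∆ D') = hh p.2 g D + hh p.2 (tg g D) D' := by
    rw [ae_all_iff]; intro g
    rw [ae_all_iff]; intro D
    rw [ae_all_iff]; intro D'
    exact ok_coc hl h g D D'
  have a5 : ∀ᵐ p ∂Q, ∀ g D X, par (ind X) = par (ind D) →
      hh p.2 g D ≤ en (ww g p.1) (uu p.2 g) X := by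
    rw [ae_all_iff]; intro g
    rw [ae_all_iff]; intro D
    rw [ae_all_iff]; intro X
    by_cases hX : par (ind X) = par (ind D)
    · filter_upwards [ok_le hl h g D X hX] with p hp _ using hp
    · exact Eventually.of_forall fun p h => absurd h hX
  have a6 : ∀ᵐ p ∂Q, ∀ g D X f, par (ind X) = par (ind D) →
      bx (bx (uu p.2 (tg g D)) (uu p.2 g)) (ind X) f = true →
        fx p.2 (tg g D) f ≤ en (ww g p.1) (uu p.2 g) X - hh p.2 g D := by
    rw [ae_all_iff]; intro g
    rw [ae_all_iff]; intro D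
    rw [ae_all_iff]; intro X
    rw [ae_all_iff]; intro f
    by_cases hX : par (ind X) = par (ind D)
    · filter_upwards [ok_gap hl h g D X f hX] with p hp _ using hp
    · exact Eventually.of_forall fun p h => absurd h hX
  have a7 : ∀ᵐ p ∂Q, ∀ g e, 0 < fx p.2 g e := by
    rw [ae_all_iff]; intro g
    rw [ae_all_iff]; intro e
    exact ok_fpos hl h g e
  have a8 : ∀ᵐ p ∂Q, ∀ g e, |ww (sg2 g {e}) p.1 e - ww g p.1 e| < fx p.2 g e →
      uu p.2 (sg2 g {e}) = uu p.2 g := by
    rw [ae_all_iff]; intro g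
    rw [ae_all_iff]; intro e
    exact ok_flex hl h g e
  have a9 : ∀ᵐ p ∂Q, ∀ g, ∀ A A₁ : Finset Ed, A₁ ⊆ A → ∀ D : Finset Ed, ∀ K : ℝ,
      (∀ e ∈ A, uu p.2 g e = decide (e ∈ A₁)) → 0 ≤ K →
      (∀ e ∈ A, ww g p.1 e + K < ww (sg2 g A) p.1 e) →
      uu p.2 (tg (sg2 g A) A₁) = bx (uu p.2 g) (ind A₁) ∧
      (hh p.2 g D ≤ hh p.2 (tg (sg2 g A) A₁) D ∧
        (hh p.2 (tg (sg2 g A) A₁) D < hh p.2 g D + K →
          ∀ e ∈ A, uu p.2 (tg (tg (sg2 g A) A₁) D) e = uu p.2 (tg (sg2 g A) A₁) e)) := by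
    rw [ae_all_iff]; intro g
    rw [ae_all_iff]; intro A
    rw [ae_all_iff]; intro A₁
    by_cases hA : A₁ ⊆ A
    · have h1 : ∀ᵐ p ∂Q, ∀ D : Finset Ed, ∀ K : ℝ,
          (∀ e ∈ A, uu p.2 g e = decide (e ∈ A₁)) → 0 ≤ K →
          (∀ e ∈ A, ww g p.1 e + K < ww (sg2 g A) p.1 e) →
          uu p.2 (tg (sg2 g A) A₁) = bx (uu p.2 g) (ind A₁) ∧
          (hh p.2 g D ≤ hh p.2 (tg (sg2 g A) A₁) D ∧
            (hh p.2 (tg (sg2 g A) A₁) D < hh p.2 g D + K →
              ∀ e ∈ A, uu p.2 (tg (tg (sg2 g A) A₁) D) e = uu p.2 (tg (sg2 g A) A₁) e)) := by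
        rw [ae_all_iff]; intro D
        exact ok_raise hl h g A A₁ hA D
      filter_upwards [h1] with p hp _ using hp
    · exact Eventually.of_forall fun p h => absurd h hA
  filter_upwards [a1, a2, a3, a4, a5, a6, a7, a8, a9] with p h1 h2 h3 h4 h5 h6 h7 h8 h9
  refine ⟨h1.1, h1.2, fun g => ⟨h2 g, h3 g⟩, h4, h5, h6, h7, h8, ?_⟩
  intro g A A₁ K hA hU hK hr
  refine ⟨(h9 g A A₁ hA ∅ K hU hK hr).1, fun D => (h9 g A A₁ hA D K hU hK hr).2⟩

end

/-! ### independence of the spare weights -/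

section

variable (lam : Measure ℝ) [IsProbabilityMeasure lam]

theorem mp_pair : MeasurePreserving (fun (q : (Ed → ℝ) × (Ed → ℝ)) (e : Ed) => (q.1 e, q.2 e))
    ((PP lam).prod (PP lam)) (Measure.infinitePi fun _ : Ed => lam.prod lam) := by
  have hm : Measurable (fun (q : (Ed → ℝ) × (Ed → ℝ)) (e : Ed) => (q.1 e, q.2 e)) :=
    measurable_pi_lambda _ fun e => ((measurable_pi_apply e).comp measurable_fst).prodMk
      ((measurable_pi_apply e).comp measurable_snd)
  refine ⟨hm, ?_⟩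
  refine Measure.eq_infinitePi (μ := fun _ : Ed => lam.prod lam) ?_
  intro s t ht
  rw [Measure.map_apply hm (MeasurableSet.pi s.countable_toSet fun i _ => ht i)]
  set ρ : (Ed → ℝ) → (s → ℝ) := fun w i => w i with hρ
  have hρm : Measurable ρ := measurable_pi_lambda _ fun i => measurable_pi_apply _
  have hρp : MeasurePreserving ρ (PP lam) (Measure.pi fun _ : s => lam) :=
    ⟨hρm, Measure.infinitePi_map_restrict (μ := fun _ : Ed => lam) (I := s)⟩
  have h2 := (measurePreserving_arrowProdEquivProdArrow ℝ ℝ s (fun _ => lam) (fun _ => lam)).symm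
  have h3 := h2.comp (hρp.prod hρp)
  have hbox : MeasurableSet (Set.univ.pi fun i : s => t i) :=
    MeasurableSet.univ_pi fun i => ht i
  have h4 := h3.measure_preimage hbox.nullMeasurableSet
  rw [Measure.pi_pi] at h4
  have h5 : (fun (q : (Ed → ℝ) × (Ed → ℝ)) (e : Ed) => (q.1 e, q.2 e)) ⁻¹' (Set.pi ↑s t) =
      ((MeasurableEquiv.arrowProdEquivProdArrow ℝ ℝ s).symm ∘ Prod.map ρ ρ) ⁻¹'
        (Set.univ.pi fun i : s => t i) := by
    ext q
    simp only [Set.mem_preimage, Set.mem_pi, Finset.mem_coe, Set.mem_univ, true_implies,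
      Subtype.forall]
    rfl
  rw [h5, h4]
  exact Finset.prod_coe_sort s (fun i => (lam.prod lam) (t i))

theorem mp_split : MeasurePreserving (fun ω : Env => (spr ω, bE0 ω)) (PE lam)
    ((PP lam).prod (PB lam)) := by
  have hm : Measurable fun ω : Env => (spr ω, bE0 ω) := by
    refine Measurable.prodMk ?_ (Measurable.prodMk ?_ measurable_snd)
    · exact measurable_pi_lambda _ fun e =>
        measurable_snd.comp ((measurable_pi_apply e).comp measurable_fst)
    · exact measurable_pi_lambda _ fun e =>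
        measurable_fst.comp ((measurable_pi_apply e).comp measurable_fst)
  have h1 : MeasurePreserving (Prod.map (fun (q : (Ed → ℝ) × (Ed → ℝ)) (e : Ed) =>
      (q.1 e, q.2 e)) (id : (Vx → Bool) → (Vx → Bool))) (((PP lam).prod (PP lam)).prod PT)
      (PE lam) := (mp_pair lam).prod (MeasurePreserving.id PT)
  have h2 : MeasurePreserving (fun q : ((Ed → ℝ) × (Ed → ℝ)) × (Vx → Bool) =>
      (q.1.2, (q.1.1, q.2))) (((PP lam).prod (PP lam)).prod PT) ((PP lam).prod (PB lam)) := by
    have h3 := (Measure.measurePreserving_swap (μ := PP lam) (ν := PP lam)).prod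
      (MeasurePreserving.id PT)
    have h4 := measurePreserving_prodAssoc (PP lam) (PP lam) PT
    exact h4.comp h3
  refine ⟨hm, ?_⟩
  rw [← h1.map_eq, Measure.map_map hm h1.measurable]
  exact h2.map_eq

end

/-- restricted states as a function of weights and frustrated plaquettes -/
noncomputable def Ps (B : Finset Vx) (b : WT) : Rs := fun S =>
  s0 B (b.1, vx b.2 (Helper61.MM.indV S))

theorem rs_sT (B : Finset Vx) (ω : Env) : rs (sT B ω) = Ps B (bE0 ω) := by
  funext S
  unfold rs Ps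
  rw [sT_apply]
  congr 1

theorem measurable_Ps (B : Finset Vx) : Measurable (Ps B) := by
  refine measurable_pi_lambda _ fun S => ?_
  have h4 : Measurable fun b : WT => ((b.1, vx b.2 (Helper61.MM.indV S)) : WT) :=
    measurable_fst.prodMk ((measurable_vx_const _).comp measurable_snd)
  have h3 := (measurable_s0 B).comp h4
  have h2 : (fun b : WT => Ps B b S) =
      s0 B ∘ fun b : WT => ((b.1, vx b.2 (Helper61.MM.indV S)) : WT) := by
    funext b; rfl
  rw [h2]
  exact h3

/-- spare weights, and the rest -/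
def obs (p : Env × Vl) : (Ed → ℝ) × WT × Rs := (spr p.1, bE0 p.1, rs p.2)

theorem continuous_obs : Continuous obs := by
  unfold obs spr bE0 rs
  fun_prop

instance iRs1 : BorelSpace Rs := Pi.borelSpace
instance iRs2 : SecondCountableTopology Rs := inferInstance
instance iRs3 : TopologicalSpace.PseudoMetrizableSpace Rs := inferInstance
instance iWT1 : BorelSpace WT := inferInstance
instance iWT2 : TopologicalSpace.PseudoMetrizableSpace WT := inferInstance
instance iWR1 : BorelSpace (WT × Rs) := inferInstance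
instance iWR2 : HasOuterApproxClosed (WT × Rs) := inferInstance
instance iER1 : BorelSpace ((Ed → ℝ) × WT × Rs) := inferInstance
instance iER2 : HasOuterApproxClosed ((Ed → ℝ) × WT × Rs) := inferInstance

theorem measurable_obs : Measurable obs := continuous_obs.measurable

theorem lw_obs (lam : Measure ℝ) [IsProbabilityMeasure lam] (B : Finset Vx) :
    (lw lam B).map obs = (PP lam).prod ((PB lam).map fun b => (b, Ps B b)) := by
  have hg : Measurable fun b : WT => (b, Ps B b) := measurable_id.prodMk (measurable_Ps B)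
  unfold lw
  rw [Measure.map_map measurable_obs (measurable_gr B)]
  have h1 : obs ∘ (fun ω : Env => (ω, sT B ω)) =
      Prod.map id (fun b : WT => (b, Ps B b)) ∘ fun ω : Env => (spr ω, bE0 ω) := by
    funext ω
    simp only [Function.comp, obs, Prod.map, id]
    rw [rs_sT]
  rw [h1, ← Measure.map_map (measurable_id.prodMap hg) (mp_split lam).measurable,
    (mp_split lam).map_eq]
  have h2 := Measure.map_prod_map (PP lam) (PB lam) (f := id) measurable_id hg
  rw [Measure.map_id] at h2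
  exact h2.symm

theorem lim_indep {lam : Measure ℝ} {U : Ultrafilter ℕ} {Q : Measure (Env × Vl)} (hl : Wgt lam)
    (h : LimQ lam U Q) : Q.map (fun p => (spr p.1, bE0 p.1, rs p.2)) =
      (PP lam).prod (Q.map fun p => (bE0 p.1, rs p.2)) := by
  have := hl.prob
  have := h.pr
  have : IsProbabilityMeasure (Q.map obs) :=
    Measure.isProbabilityMeasure_map measurable_obs.aemeasurable
  have hpr : ∀ n, IsProbabilityMeasure ((mN lam n).map obs) := fun n =>
    Measure.isProbabilityMeasure_map measurable_obs.aemeasurable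
  have h1 := h.lim.map (f := obs) continuous_obs measurable_obs
  have h2 : ∀ n, (mN lam n).map obs = (PP lam).prod (((mN lam n).map obs).map Prod.snd) := by
    intro n
    -- the averaged law is a product
    set ν : Measure (WT × Rs) := ((box n).card : ℝ≥0∞)⁻¹ •
      ∑ u ∈ box n, (PB lam).map fun b => (b, Ps (vol n u) b) with hν
    have hg : ∀ B : Finset Vx, Measurable fun b : WT => (b, Ps B b) := fun B =>
      measurable_id.prodMk (measurable_Ps B)
    have : ∀ B : Finset Vx, IsProbabilityMeasure ((PB lam).map fun b => (b, Ps B b)) := fun B =>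
      Measure.isProbabilityMeasure_map (hg B).aemeasurable
    have hν1 : IsProbabilityMeasure ν := by
      refine ⟨?_⟩
      rw [hν, Measure.smul_apply, Measure.finsetSum_apply, smul_eq_mul]
      simp only [measure_univ, Finset.sum_const, nsmul_eq_mul, mul_one]
      exact ENNReal.inv_mul_cancel (card_ne n) (card_ne_top n)
    have h3 : (mN lam n).map obs = (PP lam).prod ν := by
      refine (Measure.prod_eq fun s t hs ht => ?_).symm
      rw [Measure.map_apply measurable_obs (hs.prod ht), mN_apply]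
      have h4 : ∀ u ∈ box n, lw lam (vol n u) (obs ⁻¹' (s ×ˢ t)) =
          PP lam s * ((PB lam).map fun b => (b, Ps (vol n u) b)) t := by
        intro u _
        rw [← Measure.map_apply measurable_obs (hs.prod ht), lw_obs, Measure.prod_prod]
      rw [Finset.sum_congr rfl h4, ← Finset.mul_sum, hν, Measure.smul_apply,
        Measure.finsetSum_apply, smul_eq_mul]
      ring
    rw [h3]
    congr 1
    exact (Measure.map_snd_prod.trans (by simp)).symm
  have h3 := h1.prod_eq hpr (Eventually.of_forall h2)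
  have h4 : (Q.map obs).map Prod.snd = Q.map fun p => (bE0 p.1, rs p.2) := by
    rw [Measure.map_map measurable_snd measurable_obs]
    rfl
  rw [h4] at h3
  exact h3

end Pool.Agent.H49MM

namespace Pool.Agent.Helper61.MM

open Pool.Agent.H49MM MeasureTheory

/-- existence of extended metastates -/
theorem exists_M {lam : Measure ℝ} (hl : Wgt lam) : ∃ Q, IsM lam Q := by
  obtain ⟨U, Q, h⟩ := exists_LimQ hl
  exact ⟨Q, lim_fst hl h, lim_shift hl h, lim_act hl h, lim_ok hl h, lim_indep hl h⟩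

end Pool.Agent.Helper61.MM
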