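import Pool.Agent.Helper49.MM.Prob
import Pool.Agent.Helper49.MS.WL

set_option autoImplicit false

/-! The averaged finite volume laws. -/

namespace Pool.Agent.H49MM

open Pool.Agent.Helper60.TJ Pool.Agent.Helper61.MM Pool.Agent.H49WL MeasureTheory Filter Topology
open scoped symmDiff ENNReal NNReal

instance iSt1 : SecondCountableTopology St := inferInstance
instance iGm : Countable Gm := inferInstance
instance iSt2 : BorelSpace St := inferInstance
instance iVl1 : BorelSpace Vl := Pi.borelSpace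
instance iEnv1 : BorelSpace Env := inferInstance
instance iVl2 : SecondCountableTopology Vl := inferInstance
instance iP1 : BorelSpace (Env × Vl) := inferInstance
instance iVl3 : TopologicalSpace.PseudoMetrizableSpace Vl := inferInstance
instance iEnv2 : TopologicalSpace.PseudoMetrizableSpace Env := inferInstance
instance iP2 : HasOuterApproxClosed (Env × Vl) := inferInstance

theorem mem_box' {L : ℕ} {v : Vx} :
    v ∈ box L ↔ (-(L : ℤ) ≤ v.1 ∧ v.1 ≤ L) ∧ (-(L : ℤ) ≤ v.2 ∧ v.2 ≤ L) := by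
  unfold box
  rw [Finset.mem_product, Finset.mem_Icc, Finset.mem_Icc]

theorem card_box' (L : ℕ) : (box L).card = (2 * L + 1) ^ 2 := by
  unfold box
  rw [Finset.card_product, Int.card_Icc]
  have : ((L : ℤ) + 1 - (-(L : ℤ))).toNat = 2 * L + 1 := by omega
  rw [this, sq]

theorem box_mono {a b : ℕ} (h : a ≤ b) : box a ⊆ box b := by
  intro v hv
  rw [mem_box'] at hv ⊢
  omega

theorem exists_box_EV (X : Finset Ed) : ∃ r : ℕ, ∀ B : Finset Vx, box r ⊆ B → X ⊆ EV B := by
  refine ⟨∑ e ∈ X, (e.1.1.natAbs + e.1.2.natAbs), fun B hB e he => ?_⟩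
  have h := Finset.single_le_sum (f := fun e : Ed => e.1.1.natAbs + e.1.2.natAbs)
    (fun _ _ => Nat.zero_le _) he
  obtain ⟨d, hd⟩ := exists_da e
  refine mem_EV.2 ⟨da e, hB ?_, d, hd⟩
  rw [mem_box']
  unfold da
  generalize (∑ e ∈ X, (e.1.1.natAbs + e.1.2.natAbs)) = t at h ⊢
  omega

theorem exists_box_vx (v : Vx) : ∃ r : ℕ, ∀ B : Finset Vx, box r ⊆ B → v ∈ B := by
  refine ⟨v.1.natAbs + v.2.natAbs, fun B hB => hB ?_⟩
  rw [mem_box']
  omega

/-- translated volumes -/
noncomputable def vol (n : ℕ) (u : Vx) : Finset Vx := trV (-u) (box (2 * n))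

theorem box_subset_vol {n r : ℕ} (hr : r ≤ n) {u : Vx} (hu : u ∈ box n) : box r ⊆ vol n u := by
  intro v hv
  unfold vol
  rw [mem_trV, mem_box']
  rw [mem_box'] at hv hu
  simp only [sub_neg_eq_add, Prod.fst_add, Prod.snd_add]
  push_cast
  omega

/-- law of (environment, states of the volume) -/
noncomputable def lw (lam : Measure ℝ) (B : Finset Vx) : Measure (Env × Vl) :=
  (PE lam).map fun ω => (ω, sT B ω)

theorem measurable_gr (B : Finset Vx) : Measurable fun ω : Env => (ω, sT B ω) :=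
  measurable_id.prodMk (measurable_sT B)

/-- averaged laws -/
noncomputable def mN (lam : Measure ℝ) (n : ℕ) : Measure (Env × Vl) :=
  ((box n).card : ℝ≥0∞)⁻¹ • ∑ u ∈ box n, lw lam (vol n u)

section

variable (lam : Measure ℝ) [IsProbabilityMeasure lam]

instance lw_prob (B : Finset Vx) : IsProbabilityMeasure (lw lam B) :=
  Measure.isProbabilityMeasure_map (measurable_gr B).aemeasurable

theorem card_ne (n : ℕ) : ((box n).card : ℝ≥0∞) ≠ 0 := by
  rw [card_box']
  simp

theorem card_ne_top (n : ℕ) : ((box n).card : ℝ≥0∞) ≠ ⊤ := ENNReal.natCast_ne_top _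

omit [IsProbabilityMeasure lam] in
theorem mN_apply (n : ℕ) (A : Set (Env × Vl)) :
    mN lam n A = ((box n).card : ℝ≥0∞)⁻¹ * ∑ u ∈ box n, lw lam (vol n u) A := by
  unfold mN
  rw [Measure.smul_apply, Measure.finsetSum_apply, smul_eq_mul]

omit [IsProbabilityMeasure lam] in
theorem mN_le {n : ℕ} {A : Set (Env × Vl)} {c : ℝ≥0∞} (h : ∀ u ∈ box n, lw lam (vol n u) A ≤ c) :
    mN lam n A ≤ c := by
  rw [mN_apply]
  calc ((box n).card : ℝ≥0∞)⁻¹ * ∑ u ∈ box n, lw lam (vol n u) A
      ≤ ((box n).card : ℝ≥0∞)⁻¹ * ∑ u ∈ box n, c := by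
        gcongr with u hu
        exact h u hu
    _ = c := by
        rw [Finset.sum_const, nsmul_eq_mul, ← mul_assoc, ENNReal.inv_mul_cancel (card_ne n)
          (card_ne_top n), one_mul]

instance mN_prob (n : ℕ) : IsProbabilityMeasure (mN lam n) := by
  refine ⟨?_⟩
  rw [mN_apply]
  simp only [measure_univ, Finset.sum_const, nsmul_eq_mul, mul_one]
  exact ENNReal.inv_mul_cancel (card_ne n) (card_ne_top n)

omit [IsProbabilityMeasure lam] in
theorem mN_ae {n : ℕ} {F : Set (Env × Vl)} (hF : MeasurableSet F)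
    (h : ∀ u ∈ box n, ∀ᵐ ω ∂(PE lam), (ω, sT (vol n u) ω) ∈ F) : ∀ᵐ p ∂(mN lam n), p ∈ F := by
  have h1 : mN lam n Fᶜ ≤ 0 := by
    refine mN_le lam fun u hu => ?_
    unfold lw
    rw [Measure.map_apply (measurable_gr _) hF.compl]
    exact le_of_eq (h u hu)
  exact le_antisymm h1 bot_le

theorem lw_map_aP (B : Finset Vx) (g : Gm) (hm : Measurable (aP g)) :
    (lw lam B).map (aP g) = lw lam B := by
  unfold lw
  rw [Measure.map_map hm (measurable_gr B)]
  have h1 : aP g ∘ (fun ω : Env => (ω, sT B ω)) = (fun ω : Env => (ω, sT B ω)) ∘ aE g := by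
    funext ω
    simp only [Function.comp]
    unfold aP
    simp only
    rw [aV_sT]
  rw [h1, ← Measure.map_map (measurable_gr B) (mp_aE lam g).measurable, (mp_aE lam g).map_eq]

theorem lw_map_shP (B : Finset Vx) (u : Vx) (hm : Measurable (shP u)) :
    (lw lam B).map (shP u) = lw lam (trV (-u) B) := by
  unfold lw
  rw [Measure.map_map hm (measurable_gr B)]
  have h1 : shP u ∘ (fun ω : Env => (ω, sT B ω)) =
      (fun ω : Env => (ω, sT (trV (-u) B) ω)) ∘ Helper61.MM.shE u := by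
    funext ω
    simp only [Function.comp]
    unfold shP
    simp only
    rw [shV_sT]
  rw [h1, ← Measure.map_map (measurable_gr _) (mp_shE lam u).measurable, (mp_shE lam u).map_eq]

theorem mN_map_aP (n : ℕ) (g : Gm) (hm : Measurable (aP g)) :
    (mN lam n).map (aP g) = mN lam n := by
  ext A hA
  rw [Measure.map_apply hm hA, mN_apply, mN_apply]
  congr 1
  refine Finset.sum_congr rfl fun u _ => ?_
  rw [← Measure.map_apply hm hA, lw_map_aP lam _ g hm]

end

theorem trV_trV (u v : Vx) (S : Finset Vx) : trV u (trV v S) = trV (u + v) S := by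
  ext x
  rw [mem_trV, mem_trV, mem_trV]
  rw [sub_sub]

/-- the translation of the averaged law is asymptotically the same -/
theorem mN_shift (lam : Measure ℝ) [IsProbabilityMeasure lam] (u : Vx) (hm : Measurable (shP u))
    (n : ℕ) : ∃ r r' : Measure (Env × Vl), mN lam n + r = (mN lam n).map (shP u) + r' ∧
      r Set.univ ≤ ((box n).card : ℝ≥0∞)⁻¹ * ((trV u (box n)) \ (box n)).card ∧
      r' Set.univ ≤ ((box n).card : ℝ≥0∞)⁻¹ * ((box n) \ (trV u (box n))).card := by
  classical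
  set c : ℝ≥0∞ := ((box n).card : ℝ≥0∞)⁻¹ with hc
  set l : Vx → Measure (Env × Vl) := fun z => lw lam (vol n z) with hl
  refine ⟨c • ∑ z ∈ trV u (box n) \ box n, l z, c • ∑ z ∈ box n \ trV u (box n), l z, ?_, ?_, ?_⟩
  · have h1 : (mN lam n).map (shP u) = c • ∑ z ∈ trV u (box n), l z := by
      ext A hA
      rw [Measure.map_apply hm hA, mN_apply, Measure.smul_apply, Measure.finsetSum_apply,
        smul_eq_mul]
      congr 1
      unfold trV
      rw [Finset.sum_image (fun a _ b _ h => add_right_cancel h)]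
      refine Finset.sum_congr rfl fun z _ => ?_
      rw [← Measure.map_apply hm hA, lw_map_shP lam _ u hm, hl]
      simp only
      congr 2
      unfold vol
      rw [trV_trV, neg_add_rev]
    rw [h1]
    unfold mN
    rw [← smul_add, ← smul_add]
    congr 1
    have e1 : ∑ z ∈ box n, l z + ∑ z ∈ trV u (box n) \ box n, l z =
        ∑ z ∈ box n ∪ trV u (box n), l z := by
      rw [← Finset.sum_union Finset.disjoint_sdiff, Finset.union_sdiff_self_eq_union]
    have e2 : ∑ z ∈ trV u (box n), l z + ∑ z ∈ box n \ trV u (box n), l z =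
        ∑ z ∈ box n ∪ trV u (box n), l z := by
      rw [← Finset.sum_union Finset.disjoint_sdiff, Finset.union_sdiff_self_eq_union,
        Finset.union_comm]
    rw [e1, e2]
  · rw [Measure.smul_apply, Measure.finsetSum_apply, smul_eq_mul]
    simp only [hl, measure_univ, Finset.sum_const, nsmul_eq_mul, mul_one]
    exact le_rfl
  · rw [Measure.smul_apply, Measure.finsetSum_apply, smul_eq_mul]
    simp only [hl, measure_univ, Finset.sum_const, nsmul_eq_mul, mul_one]
    exact le_rfl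

theorem card_sdiff_aux (u : Vx) (n : ℕ) :
    ((box n) \ (trV u (box n))).card ≤ 2 * (u.1.natAbs + u.2.natAbs) * (2 * n + 1) := by
  classical
  set a : ℕ := u.1.natAbs with ha
  set b : ℕ := u.2.natAbs with hb
  have hsub : (box n) \ (trV u (box n)) ⊆
      ((Finset.Icc ((n : ℤ) + 1 - a) n ∪ Finset.Icc (-(n : ℤ)) (-(n : ℤ) - 1 + a)) ×ˢ
        Finset.Icc (-(n : ℤ)) n) ∪
      (Finset.Icc (-(n : ℤ)) n ×ˢ
        (Finset.Icc ((n : ℤ) + 1 - b) n ∪ Finset.Icc (-(n : ℤ)) (-(n : ℤ) - 1 + b))) := by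
    intro v hv
    obtain ⟨h1, h2⟩ := Finset.mem_sdiff.1 hv
    rw [mem_trV, mem_box'] at h2
    rw [mem_box'] at h1
    simp only [Finset.mem_union, Finset.mem_product, Finset.mem_Icc]
    simp only [Prod.fst_sub, Prod.snd_sub] at h2
    omega
  refine (Finset.card_le_card hsub).trans ((Finset.card_union_le _ _).trans ?_)
  rw [Finset.card_product, Finset.card_product]
  have h1 : (Finset.Icc ((n : ℤ) + 1 - a) n ∪ Finset.Icc (-(n : ℤ)) (-(n : ℤ) - 1 + a)).card
      ≤ 2 * a := by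
    refine (Finset.card_union_le _ _).trans ?_
    rw [Int.card_Icc, Int.card_Icc]
    omega
  have h2 : (Finset.Icc ((n : ℤ) + 1 - b) n ∪ Finset.Icc (-(n : ℤ)) (-(n : ℤ) - 1 + b)).card
      ≤ 2 * b := by
    refine (Finset.card_union_le _ _).trans ?_
    rw [Int.card_Icc, Int.card_Icc]
    omega
  have h3 : (Finset.Icc (-(n : ℤ)) n).card = 2 * n + 1 := by
    rw [Int.card_Icc]; omega
  rw [h3]
  nlinarith [Nat.mul_le_mul_right (2 * n + 1) h1, Nat.mul_le_mul_right (2 * n + 1) h2]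

/-- the number of points which leave the box is of smaller order -/
theorem card_sdiff_le (u : Vx) (n : ℕ) :
    ((trV u (box n)) \ (box n)).card ≤ 2 * (u.1.natAbs + u.2.natAbs) * (2 * n + 1) ∧
    ((box n) \ (trV u (box n))).card ≤ 2 * (u.1.natAbs + u.2.natAbs) * (2 * n + 1) := by
  classical
  refine ⟨?_, card_sdiff_aux u n⟩
  have h1 : (trV u (box n)) \ (box n) = trV u ((box n) \ (trV (-u) (box n))) := by
    ext v
    rw [Finset.mem_sdiff, mem_trV, mem_trV, Finset.mem_sdiff, mem_trV]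
    simp
  rw [h1]
  refine Finset.card_image_le.trans ?_
  have h2 := card_sdiff_aux (-u) n
  simpa using h2

/-- the masses in `mN_shift` tend to zero -/
theorem tendsto_eps (u : Vx) : Tendsto (fun n : ℕ => ((box n).card : ℝ≥0∞)⁻¹ *
    ((2 * (u.1.natAbs + u.2.natAbs) * (2 * n + 1) : ℕ) : ℝ≥0∞)) atTop (𝓝 0) := by
  set a : ℕ := 2 * (u.1.natAbs + u.2.natAbs) with ha
  have h1 : ∀ n : ℕ, ((box n).card : ℝ≥0∞)⁻¹ * ((a * (2 * n + 1) : ℕ) : ℝ≥0∞) =
      (a : ℝ≥0∞) * ((2 * n + 1 : ℕ) : ℝ≥0∞)⁻¹ := by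
    intro n
    rw [card_box', sq]
    push_cast
    have h0 : (2 * (n : ℝ≥0∞) + 1) ≠ 0 := by simp
    have ht : (2 * (n : ℝ≥0∞) + 1) ≠ ⊤ := by
      refine ENNReal.add_ne_top.2 ⟨ENNReal.mul_ne_top (by simp) (ENNReal.natCast_ne_top _), by simp⟩
    rw [ENNReal.mul_inv (Or.inl h0) (Or.inl ht)]
    calc (2 * (n : ℝ≥0∞) + 1)⁻¹ * (2 * (n : ℝ≥0∞) + 1)⁻¹ * (a * (2 * (n : ℝ≥0∞) + 1))
        = a * (2 * (n : ℝ≥0∞) + 1)⁻¹ * ((2 * (n : ℝ≥0∞) + 1)⁻¹ * (2 * (n : ℝ≥0∞) + 1)) := by ring
      _ = a * (2 * (n : ℝ≥0∞) + 1)⁻¹ := by rw [ENNReal.inv_mul_cancel h0 ht, mul_one]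
  simp_rw [h1]
  have h2 : Tendsto (fun n : ℕ => ((2 * n + 1 : ℕ) : ℝ≥0∞)⁻¹) atTop (𝓝 0) := by
    have h3 : Tendsto (fun n : ℕ => 2 * n + 1) atTop atTop :=
      tendsto_atTop_mono (fun n => (show n ≤ 2 * n + 1 by omega)) tendsto_id
    exact ENNReal.tendsto_inv_nat_nhds_zero.comp h3
  have h4 := ENNReal.Tendsto.const_mul h2 (Or.inr (ENNReal.natCast_ne_top a))
  simpa using h4

end Pool.Agent.H49MM
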