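import Pool.Agent.Helper61.MM.Cont
import Pool.Agent.Helper98.MM.FarPat
import Pool.Agent.Helper5.Replica
import Pool.Agent.Helper5.MMRepB
import Pool.Agent.Helper66.LK.OneState

set_option autoImplicit false

/-!
# CANON-A: measurability of the masses, ground states, the replicas are canonical
-/

namespace Pool.Agent.Helper49.MM

open MeasureTheory ProbabilityTheory Filter Topology Pool.Agent.Helper60.TJ
open Pool.Agent.Helper61.MM
open scoped symmDiff

variable {lam : Measure ℝ} {κ : Kernel WT Rs} {R : Measure Om}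

theorem meas_ru : Measurable fun r : Rs => (r ∅).1 :=
  measurable_fst.comp (measurable_pi_apply _)

theorem markov_kU (κ : Kernel WT Rs) [IsMarkovKernel κ] : IsMarkovKernel (kU κ) :=
  Kernel.IsMarkovKernel.map κ meas_ru

theorem kU_apply (κ : Kernel WT Rs) (b : WT) {s : Set (Ed → Bool)} (hs : MeasurableSet s) :
    kU κ b s = κ b {r | (r ∅).1 ∈ s} := by
  unfold kU
  rw [Kernel.map_apply' _ meas_ru _ hs]
  rfl

theorem measurable_mass' (κ : Kernel WT Rs) [IsMarkovKernel κ] :
    Measurable fun q : WT × (Ed → Bool) => kU κ q.1 {q.2} := by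
  have := markov_kU κ
  have hs : MeasurableSet {p : (WT × (Ed → Bool)) × (Ed → Bool) | p.2 ≠ p.1.2} :=
    Pool.Agent.Helper98.MM.measurableSet_ne measurable_snd (measurable_snd.comp measurable_fst)
  have h := Kernel.measurable_kernel_prodMk_left
    (κ := Kernel.comap (kU κ) (Prod.fst : WT × (Ed → Bool) → WT) measurable_fst) hs.compl
  convert h using 2 with q
  rw [Kernel.comap_apply]
  congr 1
  ext U
  simp

/-- the environment and the conditional law: ground states -/
theorem kU_GS' (hl : Wgt lam) (hR : IsR lam κ R) :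
    ∀ᵐ b ∂(PB lam), (∀ e, 0 < b.1 e) ∧ NT b.1 ∧ ∀ᵐ U ∂(kU κ b), U ∈ GS b.1 b.2 := by
  have := hR.mark
  have hG := Pool.Agent.Helper66.LK.measurableSet_GS
  -- the bad set
  set B : Set (WT × Rs) := {x | ¬ ((∀ e, 0 < x.1.1 e) ∧ NT (wt x.1.1) ∧ (x.2 ∅).1 ∈ GS x.1.1 x.1.2)}
    with hB
  have hwt : ∀ w : Ed → ℝ, (∀ e, 0 < w e) → wt w = w := fun w hw => by
    funext e
    exact abs_of_pos (hw e)
  have hBm : MeasurableSet B := by
    have h2 : {x : WT × Rs | ∀ e, 0 < x.1.1 e} = ⋂ e : Ed, {x : WT × Rs | 0 < x.1.1 e} := by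
      ext p; simp
    have h3 : MeasurableSet {x : WT × Rs | ∀ e, 0 < x.1.1 e} := by
      rw [h2]
      exact MeasurableSet.iInter fun e => measurableSet_lt measurable_const
        ((measurable_pi_apply e).comp (measurable_fst.comp measurable_fst))
    have h4 : MeasurableSet {x : WT × Rs | NT (wt x.1.1)} :=
      Pool.Agent.Helper5.MM.measurableSet_NT.preimage (measurable_fst.comp measurable_fst)
    have h5 : MeasurableSet {x : WT × Rs | (x.2 ∅).1 ∈ GS x.1.1 x.1.2} :=
      hG.preimage (measurable_fst.prodMk (meas_ru.comp measurable_snd))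
    exact (h3.inter (h4.inter h5)).compl
  have h1 := Pool.Agent.Helper98.MM.law_one hl hR 0 hBm
  have h0 : R {z | (bE0 z.1, rs (rp z 0)) ∈ B} = 0 := by
    have h2 : ∀ᵐ z ∂(R), (bE0 z.1, rs (rp z 0)) ∉ B := by
      filter_upwards [hR.ok] with z hz
      have h3 := hz 0
      have hw : ww g0 z.1 = (bE0 z.1).1 := by
        funext e
        simp [ww, bE0]
      have ht : tt g0 z.1 = (bE0 z.1).2 := by
        funext v
        simp [tt, vx, Pool.Agent.Helper61.MM.indV, bE0]
      intro hc
      refine hc ⟨fun e => (h3.pos e).1, ?_, ?_⟩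
      · have := h3.nt g0
        rw [hw] at this
        have e1 : wt (bE0 z.1).1 = (bE0 z.1).1 := hwt _ fun e => (h3.pos e).1
        show NT (wt (bE0 z.1).1)
        rw [e1]
        exact this
      · have := h3.mem g0
        rw [hw, ht] at this
        exact this
    exact measure_eq_zero_iff_ae_notMem.2 h2
  rw [h0] at h1
  have h2 := (lintegral_eq_zero_iff (Kernel.measurable_kernel_prodMk_left hBm)).1 h1.symm
  filter_upwards [h2] with b hb
  have hb' : κ b {r | (b, r) ∈ B} = 0 := hb
  have h3 : ∀ᵐ r ∂(κ b), (∀ e, 0 < b.1 e) ∧ NT (wt b.1) ∧ (r ∅).1 ∈ GS b.1 b.2 := by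
    rw [ae_iff]
    exact hb'
  obtain ⟨r, hr⟩ := h3.exists
  refine ⟨hr.1, hwt _ hr.1 ▸ hr.2.1, ?_⟩
  have h4 : MeasurableSet {U : Ed → Bool | U ∈ GS b.1 b.2} :=
    hG.preimage (measurable_const.prodMk measurable_id)
  rw [ae_iff]
  have h5 : MeasurableSet {U : Ed → Bool | ¬ U ∈ GS b.1 b.2} := h4.compl
  rw [kU_apply κ b h5]
  refine measure_mono_null ?_ hb'
  intro r hr2 hc
  exact hr2 hc.2.2

/-- states of positive conditional probability -/
abbrev Cs (κ : Kernel WT Rs) (b : WT) : Set (Ed → Bool) := {U | kU κ b {U} ≠ 0}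

/-- no three different replicas: at most two atoms -/
theorem two_atoms' (hl : Wgt lam) (hR : IsR lam κ R)
    (h3 : R (Df 0 1 g0 ∩ Df 0 2 g0 ∩ Df 1 2 g0) = 0) :
    ∀ᵐ b ∂(PB lam), (Cs κ b).Finite ∧ (Cs κ b).ncard ≤ 2 ∧ Cs κ b ≠ ∅ ∧ kU κ b (Cs κ b) = 1 := by
  have := hl.prob
  have := Pool.Agent.Helper98.MM.prob_PB hl
  have := hR.mark
  have := hR.prob
  have := markov_kU κ
  have hm := Pool.Agent.Helper98.MM.map_Phi hl hR
  have hN := Pool.Agent.Helper98.MM.measurableSet_N3
  have h1 : R.map Pool.Agent.Helper98.MM.Phi Pool.Agent.Helper98.MM.N3 = 0 := by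
    rw [Measure.map_apply Pool.Agent.Helper98.MM.measurable_Phi hN]
    refine measure_mono_null ?_ h3
    intro z hz
    exact ⟨⟨hz.1, hz.2.1⟩, hz.2.2⟩
  rw [hm, Measure.compProd_apply hN, lintegral_eq_zero_iff
    (Kernel.measurable_kernel_prodMk_left hN)] at h1
  filter_upwards [h1] with b hb
  have hb1 : ((κ ×ₖ (κ ×ₖ κ)) b) (Prod.mk b ⁻¹' Pool.Agent.Helper98.MM.N3) = 0 := hb
  -- the conditional law
  set ν : Measure (Ed → Bool) := kU κ b with hν
  have hνm : ν = (κ b).map fun r => (r ∅).1 := by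
    rw [hν]
    unfold kU
    rw [Kernel.map_apply _ meas_ru]
  have h4 : (ν.prod (ν.prod ν)) {p | p.1 ≠ p.2.1 ∧ p.1 ≠ p.2.2 ∧ p.2.1 ≠ p.2.2} = 0 := by
    have m2 : Measurable (Prod.map (fun r : Rs => (r ∅).1) fun r : Rs => (r ∅).1) :=
      meas_ru.prodMap meas_ru
    have hs : MeasurableSet {p : (Ed → Bool) × (Ed → Bool) × (Ed → Bool) |
        p.1 ≠ p.2.1 ∧ p.1 ≠ p.2.2 ∧ p.2.1 ≠ p.2.2} := by
      have a1 := Pool.Agent.Helper98.MM.measurableSet_ne
        (measurable_fst : Measurable fun p : (Ed → Bool) × (Ed → Bool) × (Ed → Bool) => p.1)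
        (measurable_fst.comp measurable_snd)
      have a2 := Pool.Agent.Helper98.MM.measurableSet_ne
        (measurable_fst : Measurable fun p : (Ed → Bool) × (Ed → Bool) × (Ed → Bool) => p.1)
        (measurable_snd.comp measurable_snd)
      have a3 := Pool.Agent.Helper98.MM.measurableSet_ne
        (measurable_fst.comp measurable_snd :
          Measurable fun p : (Ed → Bool) × (Ed → Bool) × (Ed → Bool) => p.2.1)
        (measurable_snd.comp measurable_snd)
      exact a1.inter (a2.inter a3)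
    rw [hνm, Measure.map_prod_map _ _ meas_ru meas_ru, Measure.map_prod_map _ _ meas_ru m2,
      Measure.map_apply (meas_ru.prodMap m2) hs]
    rw [Kernel.prod_apply, Kernel.prod_apply] at hb1
    exact hb1
  obtain ⟨a, a', ha⟩ := Pool.Agent.Helper5.Rep.two_atoms ν h4
  have hsub : Cs κ b ⊆ {a, a'} := by
    intro U hU
    by_contra hn
    exact hU (measure_mono_null (Set.singleton_subset_iff.2 hn) ha)
  have hfin : (Cs κ b).Finite := (Set.toFinite ({a, a'} : Set (Ed → Bool))).subset hsub
  have hone : ν (Cs κ b) = 1 := by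
    rw [← prob_compl_eq_zero_iff hfin.measurableSet]
    refine measure_mono_null (t := ({a, a'} : Set (Ed → Bool))ᶜ ∪
      (({a, a'} : Set (Ed → Bool)) ∩ (Cs κ b)ᶜ)) ?_ (measure_union_null ha ?_)
    · intro U hU
      by_cases h : U ∈ ({a, a'} : Set (Ed → Bool))
      · exact Or.inr ⟨h, hU⟩
      · exact Or.inl h
    · refine (measure_null_iff_singleton ((Set.toFinite _).inter_of_left _).countable).2 ?_
      intro U hU
      by_contra h
      exact hU.2 h
  refine ⟨hfin, ?_, ?_, hone⟩
  · refine (Set.ncard_le_ncard hsub (Set.toFinite _)).trans ?_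
    exact Set.ncard_insert_le a {a'} |>.trans (by rw [Set.ncard_singleton])
  · intro h
    rw [h, measure_empty] at hone
    exact zero_ne_one hone

/-- the toggled states of the replicas are canonical for the toggled environment -/
theorem mem_Cs (hl : Wgt lam) (hR : IsR lam κ R)
    (h3 : R (Df 0 1 g0 ∩ Df 0 2 g0 ∩ Df 1 2 g0) = 0) (S : Finset Vx) :
    ∀ᵐ z ∂(R), ∀ i, uu (rp z i) (S, ∅) ∈ Cs κ (tB S (bE0 z.1)) := by
  have := hl.prob
  have := Pool.Agent.Helper98.MM.prob_PB hl
  have := hR.mark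
  have := hR.prob
  have := markov_kU κ
  -- no modification
  have h0 : ∀ i, ∀ᵐ z ∂(R), uu (rp z i) g0 ∈ Cs κ (bE0 z.1) := by
    intro i
    set G : Set (WT × Rs) := {x | kU κ x.1 {(x.2 ∅).1} = 0} with hG
    have hGm : MeasurableSet G := by
      have h1 := (measurable_mass' κ).comp
        (measurable_fst.prodMk (meas_ru.comp measurable_snd) :
          Measurable fun x : WT × Rs => (x.1, (x.2 ∅).1))
      exact h1 (measurableSet_singleton 0)
    have h1 := Pool.Agent.Helper98.MM.law_one hl hR i hGm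
    have h2 : ∫⁻ b, κ b {r | (b, r) ∈ G} ∂(PB lam) = 0 := by
      refine (lintegral_eq_zero_iff (Kernel.measurable_kernel_prodMk_left hGm)).2 ?_
      filter_upwards [two_atoms' hl hR h3] with b hb
      show κ b {r | kU κ b {(r ∅).1} = 0} = 0
      have h5 : kU κ b (Cs κ b)ᶜ = 0 := (prob_compl_eq_zero_iff hb.1.measurableSet).2 hb.2.2.2
      rw [kU_apply κ b hb.1.measurableSet.compl] at h5
      refine measure_mono_null ?_ h5
      intro r hr hc
      exact hc hr
    rw [h2] at h1
    have h4 : ∀ᵐ z ∂(R), (bE0 z.1, rs (rp z i)) ∉ G := measure_eq_zero_iff_ae_notMem.1 h1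
    filter_upwards [h4] with z hz
    exact hz
  have h5 : ∀ᵐ z ∂(R), ∀ i, uu (rp z i) g0 ∈ Cs κ (bE0 z.1) := ae_all_iff.2 h0
  filter_upwards [(hR.act ((S, ∅) : Gm)).quasiMeasurePreserving.ae h5] with z hz i
  have h6 := hz i
  have e1 : bE0 (aO ((S, ∅) : Gm) z).1 = tB S (bE0 z.1) := by
    refine Prod.ext ?_ rfl
    funext e
    simp [aO, aE, bE0, tB]
  have e2 : uu (rp (aO ((S, ∅) : Gm) z) i) g0 = uu (rp z i) (S, ∅) := by
    have e3 : gad ((S, ∅) : Gm) g0 = (S, ∅) := by
      simp [gad]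
    fin_cases i
    · show uu (aV ((S, ∅) : Gm) z.2.1) g0 = uu z.2.1 (S, ∅)
      unfold uu aV
      rw [e3]
    · show uu (aV ((S, ∅) : Gm) z.2.2.1) g0 = uu z.2.2.1 (S, ∅)
      unfold uu aV
      rw [e3]
    · show uu (aV ((S, ∅) : Gm) z.2.2.2) g0 = uu z.2.2.2 (S, ∅)
      unfold uu aV
      rw [e3]
  rw [e1, e2] at h6
  exact h6

/-- the translate of an environment as a measurable equivalence -/
def shBe (u : Vx) : WT ≃ᵐ WT where
  toFun := shB u
  invFun := shB (-u)
  left_inv := fun b => Pool.Agent.Helper98.MM.shB_neg u b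
  right_inv := fun b => by
    have h := Pool.Agent.Helper98.MM.shB_neg (-u) b
    rwa [neg_neg] at h
  measurable_toFun := Pool.Agent.Helper98.MM.measurable_shB u
  measurable_invFun := Pool.Agent.Helper98.MM.measurable_shB (-u)

/-- the conditional law is translation covariant -/
theorem kU_shift' (hl : Wgt lam) (hR : IsR lam κ R) (u : Vx) :
    ∀ᵐ b ∂(PB lam), kU κ (shB u b) = (kU κ b).map (sh u) := by
  have := hl.prob
  have := Pool.Agent.Helper98.MM.prob_PB hl
  have := hR.mark
  have := hR.prob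
  have := markov_kU κ
  set Q : Measure (WT × (Ed → Bool)) := (PB lam) ⊗ₘ (kU κ) with hQ
  have hfst : Q.fst = PB lam := Measure.fst_compProd _ _
  -- the law of the environment and of one replica
  have hlaw : ∀ s : Set (WT × (Ed → Bool)), MeasurableSet s →
      Q s = R {z | (bE0 z.1, uu (rp z 0) g0) ∈ s} := by
    intro s hs
    have hGm : MeasurableSet {x : WT × Rs | (x.1, (x.2 ∅).1) ∈ s} :=
      hs.preimage (measurable_fst.prodMk (meas_ru.comp measurable_snd))
    have h1 := Pool.Agent.Helper98.MM.law_one hl hR 0 hGm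
    rw [hQ, Measure.compProd_apply hs]
    refine Eq.trans (lintegral_congr fun b => ?_) h1.symm
    rw [kU_apply κ b (hs.preimage (measurable_prodMk_left))]
    rfl
  have hsh := Pool.Agent.Helper98.MM.measurable_sh (α := Bool) u
  have hT : Measurable fun p : WT × (Ed → Bool) => (shB u p.1, sh u p.2) :=
    ((Pool.Agent.Helper98.MM.measurable_shB u).comp measurable_fst).prodMk
      (hsh.comp measurable_snd)
  have hinv : Q.map (fun p => (shBe u p.1, (fun _ U => sh u U : WT → (Ed → Bool) → (Ed → Bool))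
      p.1 p.2)) = Q := by
    ext s hs
    change Q.map (fun p : WT × (Ed → Bool) => (shB u p.1, sh u p.2)) s = Q s
    rw [Measure.map_apply hT hs, hlaw _ (hs.preimage hT), hlaw _ hs]
    have hm0 : Measurable fun z : Om => (bE0 z.1, uu (rp z 0) g0) := by
      refine (Pool.Agent.Helper98.MM.measurable_bE0.comp measurable_fst).prodMk ?_
      exact Pool.Agent.Helper66.LK.measurable_uu0.comp (measurable_fst.comp measurable_snd)
    have h2 := (hR.shift u).measure_preimage (hs.preimage hm0).nullMeasurableSet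
    rw [show {z : Om | (bE0 z.1, uu (rp z 0) g0) ∈ s} =
      (fun z : Om => (bE0 z.1, uu (rp z 0) g0)) ⁻¹' s from rfl, ← h2]
    congr 1
  have hg : Measurable fun p : WT × (Ed → Bool) =>
      (fun _ U => sh u U : WT → (Ed → Bool) → (Ed → Bool)) p.1 p.2 := hsh.comp measurable_snd
  have hkey := Pool.Agent.Helper5.Rep.condKernel_equivariant (Q := Q) (f := shBe u)
    (g := fun _ U => sh u U) hg hinv
  have huniq : ∀ᵐ x ∂Q.fst, kU κ x = Q.condKernel x := by
    refine eq_condKernel_of_measure_eq_compProd (kU κ) ?_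
    rw [hfst]
  rw [hfst] at hkey huniq
  filter_upwards [hkey, huniq, (mp_shB hl u).quasiMeasurePreserving.ae huniq] with b h1 h2 h3
  rw [h3, h2]
  exact h1

end Pool.Agent.Helper49.MM
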