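import Pool.Agent.Helper49.MM.FinOk

set_option autoImplicit false

/-! Translation covariance of the finite volume states. -/

namespace Pool.Agent.H49MM

open Pool.Agent.Helper60.TJ Pool.Agent.Helper61.MM
open scoped symmDiff

theorem mem_trV {u : Vx} {S : Finset Vx} {v : Vx} : v ∈ trV u S ↔ v - u ∈ S := by
  unfold trV
  rw [Finset.mem_image]
  constructor
  · rintro ⟨a, h, rfl⟩
    rwa [add_sub_cancel_right]
  · intro h
    exact ⟨v - u, h, sub_add_cancel v u⟩

theorem mem_trE {u : Vx} {D : Finset Ed} {e : Ed} : e ∈ trE u D ↔ (e.1 - u, e.2) ∈ D := by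
  unfold trE
  rw [Finset.mem_image]
  constructor
  · rintro ⟨a, h, rfl⟩
    simpa using h
  · intro h
    exact ⟨_, h, by simp⟩

theorem trE_eq (u : Vx) (D : Finset Ed) : trE u D = shF (-u) D := by
  ext e
  rw [mem_trE, mem_shF, sub_eq_add_neg]

theorem mem_trE' {u : Vx} {D : Finset Ed} {e : Ed} : (e.1 + u, e.2) ∈ trE u D ↔ e ∈ D := by
  rw [mem_trE]; simp

theorem mem_trV' {u : Vx} {S : Finset Vx} {v : Vx} : v + u ∈ trV u S ↔ v ∈ S := by
  rw [mem_trV]; simp

theorem sh_ind_trE (u : Vx) (D : Finset Ed) : sh u (ind (trE u D)) = ind D := by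
  funext e
  unfold sh ind
  rw [decide_eq_decide]
  exact mem_trE'

theorem par_ind_trE (u : Vx) (D : Finset Ed) (v : Vx) :
    par (ind (trE u D)) (v + u) = par (ind D) v := by
  rw [← par_sh, sh_ind_trE]

theorem shT_par_ind_trE (u : Vx) (D : Finset Ed) :
    shT u (par (ind (trE u D))) = par (ind D) := by
  funext v
  exact par_ind_trE u D v

theorem shT_vx (u : Vx) (S T : Vx → Bool) : shT u (vx S T) = vx (shT u S) (shT u T) := rfl

/-- translated modification -/
def trg (u : Vx) (g : Gm) : Gm := (trV u g.1, trE u g.2)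

theorem ww_shE (u : Vx) (g : Gm) (ω : Env) :
    ww g (Helper61.MM.shE u ω) = sh u (ww (trg u g) ω) := by
  funext e
  unfold ww trg Helper61.MM.shE sh
  simp only [mem_trE']

theorem shT_indV (u : Vx) (S : Finset Vx) : shT u (indV (trV u S)) = indV S := by
  funext v
  unfold shT indV
  rw [decide_eq_decide]
  exact mem_trV'

theorem tt_shE (u : Vx) (g : Gm) (ω : Env) :
    tt g (Helper61.MM.shE u ω) = shT u (tt (trg u g) ω) := by
  unfold tt trg Helper61.MM.shE
  rw [shT_vx, shT_indV]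

theorem edg_add' (u v : Vx) (d : Dir) : edg (v + u) d = ((edg v d).1 + u, (edg v d).2) :=
  edg_add u v d

theorem mem_EV_tr {u : Vx} {B : Finset Vx} {e : Ed} :
    e ∈ EV (trV (-u) B) ↔ (e.1 + u, e.2) ∈ EV B := by
  rw [mem_EV, mem_EV]
  constructor
  · rintro ⟨v, hv, d, rfl⟩
    refine ⟨v + u, ?_, d, edg_add u v d⟩
    rw [mem_trV, sub_neg_eq_add] at hv
    exact hv
  · rintro ⟨v, hv, d, h⟩
    refine ⟨v - u, ?_, d, ?_⟩
    · rw [mem_trV, sub_neg_eq_add, sub_add_cancel]
      exact hv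
    · have h1 := edg_add u (v - u) d
      rw [sub_add_cancel, h] at h1
      have h2 := congrArg Prod.fst h1
      have h3 := congrArg Prod.snd h1
      simp only at h2 h3
      exact Prod.ext (add_right_cancel h2.symm) h3.symm

theorem trE_mem_FT {u : Vx} {B : Finset Vx} {T : Vx → Bool} {X : Finset Ed} :
    trE u X ∈ FT B T ↔ X ∈ FT (trV (-u) B) (shT u T) := by
  rw [mem_FT, mem_FT]
  constructor
  · rintro ⟨h1, h2⟩
    refine ⟨fun e he => mem_EV_tr.2 (h1 (mem_trE'.2 he)), fun v hv => ?_⟩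
    rw [mem_trV, sub_neg_eq_add] at hv
    rw [← par_ind_trE u]
    exact h2 _ hv
  · rintro ⟨h1, h2⟩
    refine ⟨fun e he => ?_, fun v hv => ?_⟩
    · have h3 := mem_EV_tr.1 (h1 (mem_trE.1 he))
      simpa using h3
    · have h3 := h2 (v - u) (by rw [mem_trV, sub_neg_eq_add, sub_add_cancel]; exact hv)
      rw [← par_ind_trE u, sub_add_cancel] at h3
      rw [h3]
      unfold shT
      rw [sub_add_cancel]

theorem trE_trE (u v : Vx) (X : Finset Ed) : trE u (trE v X) = trE (u + v) X := by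
  rw [trE_eq, trE_eq, trE_eq, shF_shF, neg_add]

theorem trE_zero (X : Finset Ed) : trE 0 X = X := by
  rw [trE_eq, neg_zero, shF_zero]

theorem tw_trE (u : Vx) (w : Ed → ℝ) (X : Finset Ed) : tw w (trE u X) = tw (sh u w) X := by
  unfold tw trE
  rw [Finset.sum_image]
  · rfl
  · intro a _ b _ h
    have h2 := congrArg Prod.fst h
    have h3 := congrArg Prod.snd h
    simp only at h2 h3
    exact Prod.ext (add_right_cancel h2) h3

theorem HT_sh (u : Vx) (B : Finset Vx) (w : Ed → ℝ) (T : Vx → Bool) :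
    HT (trV (-u) B) (sh u w) (shT u T) = HT B w T := by
  apply le_antisymm
  · refine le_HT fun Z hZ => ?_
    have h : trE (-u) Z ∈ FT (trV (-u) B) (shT u T) := by
      rw [← trE_mem_FT, trE_trE, add_neg_cancel, trE_zero]
      exact hZ
    have h2 := HT_le (sh u w) h
    rwa [← tw_trE, trE_trE, add_neg_cancel, trE_zero] at h2
  · refine le_HT fun Z hZ => ?_
    rw [← tw_trE]
    exact HT_le w (trE_mem_FT.2 hZ)

theorem ind_trE (u : Vx) (X : Finset Ed) (e : Ed) : ind (trE u X) (e.1 + u, e.2) = ind X e := by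
  unfold ind
  rw [decide_eq_decide]
  exact mem_trE'

theorem trE_mem_FTb {u : Vx} {B : Finset Vx} {T : Vx → Bool} {X : Finset Ed} {e : Ed} {b : Bool} :
    trE u X ∈ FTb B T (e.1 + u, e.2) b ↔ X ∈ FTb (trV (-u) B) (shT u T) e b := by
  rw [mem_FTb, mem_FTb, trE_mem_FT, ind_trE]

theorem HTb_sh (u : Vx) (B : Finset Vx) (w : Ed → ℝ) (T : Vx → Bool) (e : Ed) (b : Bool) :
    HTb (trV (-u) B) (sh u w) (shT u T) e b = HTb B w T (e.1 + u, e.2) b := by
  have hiff : (FTb (trV (-u) B) (shT u T) e b).Nonempty ↔ (FTb B T (e.1 + u, e.2) b).Nonempty := by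
    constructor
    · rintro ⟨X, hX⟩
      exact ⟨_, trE_mem_FTb.2 hX⟩
    · rintro ⟨X, hX⟩
      refine ⟨trE (-u) X, ?_⟩
      rw [← trE_mem_FTb, trE_trE, add_neg_cancel, trE_zero]
      exact hX
  unfold HTb
  by_cases h : (FTb B T (e.1 + u, e.2) b).Nonempty
  · rw [dif_pos h, dif_pos (hiff.2 h)]
    apply le_antisymm
    · refine Finset.le_inf' _ _ fun Z hZ => ?_
      have h1 : trE (-u) Z ∈ FTb (trV (-u) B) (shT u T) e b := by
        rw [← trE_mem_FTb, trE_trE, add_neg_cancel, trE_zero]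
        exact hZ
      have h2 := Finset.inf'_le (tw (sh u w)) h1
      rwa [← tw_trE, trE_trE, add_neg_cancel, trE_zero] at h2
    · refine Finset.le_inf' _ _ fun Z hZ => ?_
      rw [← tw_trE]
      exact Finset.inf'_le _ (trE_mem_FTb.2 hZ)
  · rw [dif_neg h, dif_neg fun h' => h (hiff.1 h'), HT_sh]

theorem UT_sh (u : Vx) (B : Finset Vx) (w : Ed → ℝ) (T : Vx → Bool) :
    UT (trV (-u) B) (sh u w) (shT u T) = sh u (UT B w T) := by
  funext e
  unfold UT sh
  have h1 := HTb_sh u B w T e true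
  have h2 := HTb_sh u B w T e false
  unfold sh at h1 h2
  rw [h1, h2]

theorem xT_sh (u : Vx) (B : Finset Vx) (w : Ed → ℝ) (T : Vx → Bool) :
    xT (trV (-u) B) (sh u w) (shT u T) = sh u (xT B w T) := by
  funext e
  unfold xT sh
  have h1 := HTb_sh u B w T e true
  have h2 := HTb_sh u B w T e false
  unfold sh at h1 h2
  rw [h1, h2]

/-- covariance of the states -/
theorem shV_sT (u : Vx) (B : Finset Vx) (ω : Env) :
    shV u (sT B ω) = sT (trV (-u) B) (Helper61.MM.shE u ω) := by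
  funext g
  unfold shV shSt sT
  simp only
  rw [ww_shE, tt_shE, UT_sh, xT_sh]
  refine Prod.ext rfl (Prod.ext ?_ rfl)
  funext D
  simp only
  rw [HT_sh, ← shT_par_ind_trE u D, ← shT_vx, HT_sh]
  rfl

/-- the action of the modifications -/
theorem ww_gad (g g' : Gm) (ω : Env) : ww g' (aE g ω) = ww (gad g g') ω := by
  funext e
  unfold ww aE gad
  simp only [Finset.mem_symmDiff]
  by_cases h : e ∈ g.2 <;> by_cases h' : e ∈ g'.2 <;> simp [h, h']

theorem tt_gad (g g' : Gm) (ω : Env) : tt g' (aE g ω) = tt (gad g g') ω := by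
  unfold tt aE gad
  simp only
  rw [indV_symmDiff, vx_assoc]

theorem aV_sT (g : Gm) (B : Finset Vx) (ω : Env) : aV g (sT B ω) = sT B (aE g ω) := by
  funext g'
  unfold aV sT
  rw [ww_gad, tt_gad]

end Pool.Agent.H49MM
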