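import Pool.Agent.Helper61.MM.Defs
import Pool.Agent.Helper60.TJ.Basic

set_option autoImplicit false

/-! Minimal `T`-joins in a finite volume with free boundary. The volume is a finite set `B` of
plaquettes; `EV B` is the set of the edges around its plaquettes. -/

namespace Pool.Agent.H49MM

open Pool.Agent.Helper60.TJ
open scoped symmDiff

/-- the edges around the plaquettes of the volume -/
noncomputable def EV (B : Finset Vx) : Finset Ed :=
  (B ×ˢ (Finset.univ : Finset Dir)).image fun p => edg p.1 p.2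

theorem mem_EV {B : Finset Vx} {e : Ed} : e ∈ EV B ↔ ∃ v ∈ B, ∃ d, edg v d = e := by
  unfold EV
  rw [Finset.mem_image]
  constructor
  · rintro ⟨⟨v, d⟩, h, rfl⟩
    exact ⟨v, (Finset.mem_product.1 h).1, d, rfl⟩
  · rintro ⟨v, hv, d, rfl⟩
    exact ⟨(v, d), Finset.mem_product.2 ⟨hv, Finset.mem_univ _⟩, rfl⟩

theorem edg_mem_EV {B : Finset Vx} {v : Vx} {d : Dir} (h : v ∈ B) : edg v d ∈ EV B :=
  mem_EV.2 ⟨v, h, d, rfl⟩

open Classical in
/-- `T`-joins in the volume -/
noncomputable def FT (B : Finset Vx) (T : Vx → Bool) : Finset (Finset Ed) :=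
  (EV B).powerset.filter fun X => ∀ v ∈ B, par (ind X) v = T v

theorem mem_FT {B : Finset Vx} {T : Vx → Bool} {X : Finset Ed} :
    X ∈ FT B T ↔ X ⊆ EV B ∧ ∀ v ∈ B, par (ind X) v = T v := by
  unfold FT
  rw [Finset.mem_filter, Finset.mem_powerset]

theorem FT.symmDiff {B : Finset Vx} {T S : Vx → Bool} {Y X : Finset Ed} (hY : Y ∈ FT B T)
    (hX : X ⊆ EV B) (hp : ∀ v ∈ B, par (ind X) v = S v) : Y ∆ X ∈ FT B (vx T S) := by
  obtain ⟨h1, h2⟩ := mem_FT.1 hY
  refine mem_FT.2 ⟨fun e he => ?_, fun v hv => ?_⟩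
  · rcases Finset.mem_symmDiff.1 he with h | h
    · exact h1 h.1
    · exact hX h.1
  · rw [par_ind_symmDiff]
    unfold vx
    rw [h2 v hv, hp v hv]

theorem FT.symmDiff0 {B : Finset Vx} {T : Vx → Bool} {Y X : Finset Ed} (hY : Y ∈ FT B T)
    (hX : X ⊆ EV B) (hp : ∀ v ∈ B, par (ind X) v = false) : Y ∆ X ∈ FT B T := by
  have := FT.symmDiff hY hX hp
  rwa [vx_false] at this

/-- straight lines of edges in the volume -/
noncomputable def lin (B : Finset Vx) (e : Ed) : Finset Ed :=
  (EV B).filter fun f => f.2 = e.2 ∧ if e.2 then f.1.2 = e.1.2 else f.1.1 = e.1.1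

theorem par_lin {B : Finset Vx} (e : Ed) {v : Vx} (hv : v ∈ B) : par (ind (lin B e)) v = false := by
  have h : ∀ d : Dir, edg v d ∈ EV B := fun d => edg_mem_EV hv
  have h0 := h 0
  have h1 := h 1
  have h2 := h 2
  have h3 := h 3
  obtain ⟨⟨a, b⟩, t⟩ := e
  obtain ⟨x, y⟩ := v
  unfold par ind lin
  cases t
  · by_cases hx : x = a
    · simp [edg, hx] at h0 h1 h2 h3 ⊢
      simp [h1, h3]
    · simp [edg, hx]
  · by_cases hy : y = b
    · simp [edg, hy] at h0 h1 h2 h3 ⊢
      simp [h0, h2]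
    · simp [edg, hy]

theorem mem_lin {B : Finset Vx} {e : Ed} (he : e ∈ EV B) : e ∈ lin B e := by
  unfold lin
  rw [Finset.mem_filter]
  refine ⟨he, rfl, ?_⟩
  split_ifs <;> rfl

theorem lin_subset (B : Finset Vx) (e : Ed) : lin B e ⊆ EV B := Finset.filter_subset _ _

/-- there are `T`-joins -/
theorem FT_nonempty (B : Finset Vx) (T : Vx → Bool) : (FT B T).Nonempty := by
  classical
  -- induction on the number of plaquettes where the parity is wrong
  suffices h : ∀ n : ℕ, ∀ X : Finset Ed, X ⊆ EV B →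
      (B.filter fun v => par (ind X) v ≠ T v).card = n → (FT B T).Nonempty from
    h _ ∅ (Finset.empty_subset _) rfl
  intro n
  induction n using Nat.strong_induction_on with
  | _ n ih =>
    intro X hX hn
    by_cases h0 : ∀ v ∈ B, par (ind X) v = T v
    · exact ⟨X, mem_FT.2 ⟨hX, h0⟩⟩
    · -- take the wrong plaquette with the largest abscissa and use the edges to its east
      have hne : (B.filter fun v => par (ind X) v ≠ T v).Nonempty := by
        by_contra h1
        rw [Finset.not_nonempty_iff_eq_empty] at h1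
        refine h0 fun v hv => ?_
        by_contra h2
        have : v ∈ B.filter fun v => par (ind X) v ≠ T v := Finset.mem_filter.2 ⟨hv, h2⟩
        rw [h1] at this
        simp at this
      obtain ⟨v, hv⟩ := hne
      obtain ⟨hvB, hvT⟩ := Finset.mem_filter.1 hv
      -- half line from `v` to the east
      set R : Finset Ed := (EV B).filter fun f => f.2 = true ∧ f.1.2 = v.2 ∧ v.1 < f.1.1 with hR
      have hpR : ∀ u ∈ B, par (ind R) u = dl v u := by
        intro u hu
        have h : ∀ d : Dir, edg u d ∈ EV B := fun d => edg_mem_EV hu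
        have e0 := h 0
        have e2 := h 2
        obtain ⟨x, y⟩ := v
        obtain ⟨a, b⟩ := u
        unfold par ind dl
        rw [hR]
        by_cases hb : b = y
        · subst hb
          simp [edg] at e0 e2 ⊢
          simp only [e0, e2]
          by_cases hax : a = x
          · subst hax; simp
          · by_cases hlt : x < a
            · simp [hax, hlt]; omega
            · simp [hax, hlt]; omega
        · simp [edg, hb]
      have hlt : (B.filter fun u => par (ind (X ∆ R)) u ≠ T u).card < n := by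
        rw [← hn]
        apply Finset.card_lt_card
        rw [Finset.ssubset_iff_of_subset]
        · refine ⟨v, hv, fun h => ?_⟩
          have h2 := (Finset.mem_filter.1 h).2
          rw [par_ind_symmDiff] at h2
          unfold vx at h2
          rw [hpR v hvB] at h2
          unfold dl at h2
          simp at h2
          revert h2 hvT
          cases par (ind X) v <;> cases T v <;> simp
        · intro u hu
          obtain ⟨hu1, hu2⟩ := Finset.mem_filter.1 hu
          refine Finset.mem_filter.2 ⟨hu1, ?_⟩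
          by_cases huv : u = v
          · subst huv; exact hvT
          · rw [par_ind_symmDiff] at hu2
            unfold vx at hu2
            rw [hpR u hu1] at hu2
            unfold dl at hu2
            simpa [huv] using hu2
      refine ih _ hlt (X ∆ R) ?_ rfl
      intro e he
      rcases Finset.mem_symmDiff.1 he with h | h
      · exact hX h.1
      · exact (Finset.mem_filter.1 h.1).1

/-- weight of the minimal `T`-joins -/
noncomputable def HT (B : Finset Vx) (w : Ed → ℝ) (T : Vx → Bool) : ℝ :=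
  (FT B T).inf' (FT_nonempty B T) (tw w)

/-- `T`-joins with status `b` at `e` -/
noncomputable def FTb (B : Finset Vx) (T : Vx → Bool) (e : Ed) (b : Bool) : Finset (Finset Ed) :=
  (FT B T).filter fun Y => ind Y e = b

theorem mem_FTb {B : Finset Vx} {T : Vx → Bool} {e : Ed} {b : Bool} {Y : Finset Ed} :
    Y ∈ FTb B T e b ↔ Y ∈ FT B T ∧ ind Y e = b := Finset.mem_filter

theorem FTb_nonempty {B : Finset Vx} {T : Vx → Bool} {e : Ed} {b : Bool} (he : e ∈ EV B) :
    (FTb B T e b).Nonempty := by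
  obtain ⟨Y, hY⟩ := FT_nonempty B T
  by_cases h : ind Y e = b
  · exact ⟨Y, mem_FTb.2 ⟨hY, h⟩⟩
  · refine ⟨Y ∆ lin B e, mem_FTb.2 ⟨FT.symmDiff0 hY (lin_subset B e) fun v hv => par_lin e hv, ?_⟩⟩
    rw [ind_symmDiff]
    unfold bx
    rw [ind_eq_true.2 (mem_lin he)]
    revert h
    cases ind Y e <;> cases b <;> simp

open Classical in
/-- minimal weight with prescribed status at `e` -/
noncomputable def HTb (B : Finset Vx) (w : Ed → ℝ) (T : Vx → Bool) (e : Ed) (b : Bool) : ℝ :=
  if h : (FTb B T e b).Nonempty then (FTb B T e b).inf' h (tw w) else HT B w T + 1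

/-- the minimal `T`-join -/
noncomputable def UT (B : Finset Vx) (w : Ed → ℝ) (T : Vx → Bool) : Ed → Bool :=
  fun e => decide (HTb B w T e true < HTb B w T e false)

/-- cost of a change at `e`, capped -/
noncomputable def xT (B : Finset Vx) (w : Ed → ℝ) (T : Vx → Bool) (e : Ed) : ℝ :=
  min 1 |HTb B w T e true - HTb B w T e false|

/-- no ties -/
def Uq (w : Ed → ℝ) : Prop :=
  ∀ Z Z' : Finset Ed, tw w Z = tw w Z' → Z = Z'

theorem HT_le {B : Finset Vx} {T : Vx → Bool} (w : Ed → ℝ) {Z : Finset Ed} (h : Z ∈ FT B T) :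
    HT B w T ≤ tw w Z := Finset.inf'_le _ h

theorem le_HT {B : Finset Vx} {T : Vx → Bool} {w : Ed → ℝ} {c : ℝ}
    (h : ∀ Z ∈ FT B T, c ≤ tw w Z) : c ≤ HT B w T := Finset.le_inf' _ _ h

theorem exists_HT (B : Finset Vx) (w : Ed → ℝ) (T : Vx → Bool) :
    ∃ Y ∈ FT B T, HT B w T = tw w Y := Finset.exists_mem_eq_inf' _ _

theorem HT_le_HTb (B : Finset Vx) (w : Ed → ℝ) (T : Vx → Bool) (e : Ed) (b : Bool) :
    HT B w T ≤ HTb B w T e b := by
  unfold HTb
  split_ifs with h
  · exact Finset.le_inf' _ _ fun Y hY => HT_le w (mem_FTb.1 hY).1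
  · linarith

theorem HTb_le {B : Finset Vx} {T : Vx → Bool} (w : Ed → ℝ) {e : Ed} {Z : Finset Ed}
    (h : Z ∈ FT B T) : HTb B w T e (ind Z e) ≤ tw w Z := by
  unfold HTb
  have h1 : Z ∈ FTb B T e (ind Z e) := mem_FTb.2 ⟨h, rfl⟩
  rw [dif_pos ⟨Z, h1⟩]
  exact Finset.inf'_le _ h1

theorem HTb_eq_HT {B : Finset Vx} {T : Vx → Bool} {w : Ed → ℝ} {Y : Finset Ed} (hY : Y ∈ FT B T)
    (h : HT B w T = tw w Y) (e : Ed) : HTb B w T e (ind Y e) = HT B w T :=
  le_antisymm ((HTb_le w hY).trans h.ge) (HT_le_HTb B w T e _)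

/-- a strict minimiser is `UT` -/
theorem UT_eq {B : Finset Vx} {T : Vx → Bool} {w : Ed → ℝ} {Y : Finset Ed} (hY : Y ∈ FT B T)
    (hu : ∀ Z ∈ FT B T, Z ≠ Y → tw w Y < tw w Z) : HT B w T = tw w Y ∧ UT B w T = ind Y := by
  have h : HT B w T = tw w Y := by
    refine le_antisymm (HT_le w hY) (le_HT fun Z hZ => ?_)
    by_cases hZY : Z = Y
    · rw [hZY]
    · exact (hu Z hZ hZY).le
  refine ⟨h, ?_⟩
  funext e
  have h1 := HTb_eq_HT hY h e
  have h2 : HT B w T < HTb B w T e (!(ind Y e)) := by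
    unfold HTb
    split_ifs with h3
    · obtain ⟨Z, hZ, hZe⟩ := Finset.exists_mem_eq_inf' h3 (tw w)
      rw [hZe, h]
      obtain ⟨hZ1, hZ2⟩ := mem_FTb.1 hZ
      refine hu Z hZ1 fun h5 => ?_
      subst h5
      revert hZ2
      cases ind Z e <;> simp
    · linarith
  unfold UT
  cases hb : ind Y e with
  | true =>
    rw [hb] at h1 h2
    simp only [Bool.not_true] at h2
    rw [decide_eq_true_eq, h1]
    exact h2
  | false =>
    rw [hb] at h1 h2
    simp only [Bool.not_false] at h2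
    rw [decide_eq_false_iff_not, h1]
    exact not_lt.2 h2.le

/-- the minimiser -/
theorem exists_UT {B : Finset Vx} {w : Ed → ℝ} (hu : Uq w) (T : Vx → Bool) :
    ∃ Y ∈ FT B T, HT B w T = tw w Y ∧ UT B w T = ind Y ∧
      ∀ Z ∈ FT B T, Z ≠ Y → tw w Y < tw w Z := by
  obtain ⟨Y, hY, h⟩ := exists_HT B w T
  have h2 : ∀ Z ∈ FT B T, Z ≠ Y → tw w Y < tw w Z := fun Z hZ hne =>
    lt_of_le_of_ne (h ▸ HT_le w hZ) fun h3 => hne (hu Y Z h3).symm
  exact ⟨Y, hY, h, (UT_eq hY h2).2, h2⟩

theorem xT_nonneg (B : Finset Vx) (w : Ed → ℝ) (T : Vx → Bool) (e : Ed) : 0 ≤ xT B w T e :=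
  le_min zero_le_one (abs_nonneg _)

theorem xT_le_one (B : Finset Vx) (w : Ed → ℝ) (T : Vx → Bool) (e : Ed) : xT B w T e ≤ 1 :=
  min_le_left _ _

/-- joins with another status at `e` cost at least the flexibility more -/
theorem le_tw_of_ne {B : Finset Vx} {T : Vx → Bool} {w : Ed → ℝ} (hu : Uq w) {Z : Finset Ed}
    (hZ : Z ∈ FT B T) {e : Ed} (hne : ind Z e ≠ UT B w T e) : HT B w T + xT B w T e ≤ tw w Z := by
  obtain ⟨Y, hY, h, hYn, -⟩ := exists_UT hu T
  have h1 := HTb_eq_HT hY h e
  have h2 := HTb_le w (e := e) hZ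
  rw [hYn] at hne
  have h3 : HT B w T ≤ HTb B w T e (ind Z e) := HT_le_HTb B w T e _
  have h4 : |HTb B w T e true - HTb B w T e false| = HTb B w T e (ind Z e) - HT B w T := by
    rw [← h1] at h3 ⊢
    cases hb : ind Z e <;> cases hc : ind Y e <;> rw [hb, hc] at hne <;> try exact absurd rfl hne
    · rw [hb, hc] at h3
      rw [abs_of_nonpos (by linarith)]
      linarith
    · rw [hb, hc] at h3
      rw [abs_of_nonneg (by linarith)]
  have h5 : xT B w T e ≤ HTb B w T e (ind Z e) - HT B w T := by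
    rw [← h4]; exact min_le_right _ _
  linarith

/-- weights of symmetric differences -/
theorem tw_symmDiff_en (w : Ed → ℝ) (Y X : Finset Ed) :
    tw w (Y ∆ X) = tw w Y + en w (ind Y) X := by
  classical
  have h1 : Y ∆ X = (Y \ X) ∪ (X \ Y) := rfl
  have h2 : Disjoint (Y \ X) (X \ Y) := by
    rw [Finset.disjoint_left]
    intro a ha hb
    exact (Finset.mem_sdiff.1 ha).2 (Finset.mem_sdiff.1 hb).1
  unfold tw en
  rw [h1, Finset.sum_union h2]
  have h3 : ∑ e ∈ Y, w e = ∑ e ∈ Y \ X, w e + ∑ e ∈ Y ∩ X, w e := by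
    rw [add_comm]; exact (Finset.sum_inter_add_sum_sdiff Y X w).symm
  have h4 : ∑ e ∈ X, w e * sg (ind Y e) = ∑ e ∈ X ∩ Y, w e * sg (ind Y e)
      + ∑ e ∈ X \ Y, w e * sg (ind Y e) :=
    (Finset.sum_inter_add_sum_sdiff X Y _).symm
  have h5 : ∑ e ∈ X ∩ Y, w e * sg (ind Y e) = - ∑ e ∈ Y ∩ X, w e := by
    rw [← Finset.sum_neg_distrib, Finset.inter_comm]
    refine Finset.sum_congr rfl fun e he => ?_
    have : ind Y e = true := ind_eq_true.2 (Finset.mem_inter.1 he).1
    rw [this]; simp [sg]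
  have h6 : ∑ e ∈ X \ Y, w e * sg (ind Y e) = ∑ e ∈ X \ Y, w e := by
    refine Finset.sum_congr rfl fun e he => ?_
    have : ind Y e = false := by
      unfold ind
      rw [decide_eq_false_iff_not]
      exact (Finset.mem_sdiff.1 he).2
    rw [this]; simp [sg]
  rw [h3, h4, h5, h6]
  ring

theorem uq_of_NT {w : Ed → ℝ} (h : NT w) : Uq w := by
  intro Z Z' h1
  by_contra hne
  have hC : (Z ∆ Z').Nonempty := by
    rw [Finset.nonempty_iff_ne_empty]
    intro h2
    exact hne (symmDiff_eq_bot.1 h2)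
  refine h _ hC (ind Z) ?_
  have h3 := tw_symmDiff_en w Z (Z ∆ Z')
  rw [symmDiff_symmDiff_cancel_left] at h3
  linarith

/-- change of one weight -/
theorem tw_upd (w : Ed → ℝ) (e : Ed) (x : ℝ) (Z : Finset Ed) :
    tw (upd w e x) Z = tw w Z + if ind Z e = true then x - w e else 0 := by
  classical
  unfold tw upd
  by_cases h : e ∈ Z
  · rw [if_pos (ind_eq_true.2 h), ← Finset.add_sum_erase Z _ h, ← Finset.add_sum_erase Z w h,
      Function.update_self]
    have : ∑ f ∈ Z.erase e, Function.update w e x f = ∑ f ∈ Z.erase e, w f :=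
      Finset.sum_congr rfl fun f hf => Function.update_of_ne (Finset.ne_of_mem_erase hf) _ _
    rw [this]; ring
  · rw [if_neg fun h' => h (ind_eq_true.1 h'), add_zero]
    refine Finset.sum_congr rfl fun f hf => Function.update_of_ne ?_ _ _
    rintro rfl
    exact h hf

end Pool.Agent.H49MM
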