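import Pool.Agent.Helper49.MM.Fin

set_option autoImplicit false

/-! Deterministic properties of the finite volume states. -/

namespace Pool.Agent.H49MM

open Pool.Agent.Helper60.TJ Pool.Agent.Helper61.MM
open scoped symmDiff

/-! ### bookkeeping -/

theorem exists_da (e : Ed) : ∃ d, edg (da e) d = e := by
  obtain ⟨⟨a, b⟩, t⟩ := e
  cases t
  · exact ⟨3, by simp [edg, da]⟩
  · exact ⟨2, by simp [edg, da]⟩

theorem indV_bdy (D : Finset Ed) : indV (bdy D) = par (ind D) := by
  funext v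
  unfold indV bdy
  by_cases h : par (ind D) v = true
  · rw [h, decide_eq_true_eq, Finset.mem_filter]
    refine ⟨?_, h⟩
    by_contra h2
    have h3 : ∀ d : Dir, ind D (edg v d) = false := by
      intro d
      unfold ind
      rw [decide_eq_false_iff_not]
      intro h4
      refine h2 (Finset.mem_union.2 ?_)
      obtain ⟨a, b⟩ := v
      fin_cases d
      · right
        refine Finset.mem_image.2 ⟨_, h4, ?_⟩
        simp [edg, db]
      · right
        refine Finset.mem_image.2 ⟨_, h4, ?_⟩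
        simp [edg, db]
      · left
        refine Finset.mem_image.2 ⟨_, h4, ?_⟩
        simp [edg, da]
      · left
        refine Finset.mem_image.2 ⟨_, h4, ?_⟩
        simp [edg, da]
    unfold par at h
    simp [h3] at h
  · have h1 : par (ind D) v = false := by simpa using h
    rw [h1, decide_eq_false_iff_not, Finset.mem_filter]
    exact fun h2 => h h2.2

theorem indV_symmDiff (S S' : Finset Vx) : indV (S ∆ S') = vx (indV S) (indV S') := by
  funext v
  unfold indV vx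
  by_cases h : v ∈ S <;> by_cases h' : v ∈ S' <;> simp [Finset.mem_symmDiff, h, h']

theorem bdy_symmDiff (D D' : Finset Ed) : bdy (D ∆ D') = bdy D ∆ bdy D' := by
  ext v
  have h : indV (bdy (D ∆ D')) v = indV (bdy D ∆ bdy D') v := by
    rw [indV_symmDiff, indV_bdy, indV_bdy, indV_bdy, par_ind_symmDiff]
  unfold indV at h
  simpa using h

@[simp] theorem ww_tg (g : Gm) (D : Finset Ed) (ω : Env) : ww (tg g D) ω = ww g ω := rfl

theorem tt_tg (g : Gm) (D : Finset Ed) (ω : Env) :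
    tt (tg g D) ω = vx (tt g ω) (par (ind D)) := by
  unfold tt tg
  simp only
  rw [indV_symmDiff, indV_bdy, vx_assoc]

@[simp] theorem tt_sg2 (g : Gm) (A : Finset Ed) (ω : Env) : tt (sg2 g A) ω = tt g ω := rfl

theorem ww_sg2_of_notMem {g : Gm} {A : Finset Ed} {ω : Env} {e : Ed} (h : e ∉ A) :
    ww (sg2 g A) ω e = ww g ω e := by
  unfold ww sg2
  simp only [Finset.mem_symmDiff]
  by_cases h2 : e ∈ g.2 <;> simp [h, h2]

theorem ww_sg2_single (g : Gm) (e : Ed) (ω : Env) :
    ww (sg2 g {e}) ω = upd (ww g ω) e (ww (sg2 g {e}) ω e) := by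
  funext f
  unfold upd
  by_cases h : f = e
  · subst h; rw [Function.update_self]
  · rw [Function.update_of_ne h]
    exact ww_sg2_of_notMem (by simpa using h)

/-! ### states -/

/-- the states of the volume `B` -/
noncomputable def sT (B : Finset Vx) (ω : Env) : Vl := fun g =>
  (UT B (ww g ω) (tt g ω),
    fun D => HT B (ww g ω) (vx (tt g ω) (par (ind D))) - HT B (ww g ω) (tt g ω),
    xT B (ww g ω) (tt g ω))

theorem uu_sT (B : Finset Vx) (ω : Env) (g : Gm) : uu (sT B ω) g = UT B (ww g ω) (tt g ω) := rfl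

theorem hh_sT (B : Finset Vx) (ω : Env) (g : Gm) (D : Finset Ed) : hh (sT B ω) g D =
    HT B (ww g ω) (vx (tt g ω) (par (ind D))) - HT B (ww g ω) (tt g ω) := rfl

theorem fx_sT (B : Finset Vx) (ω : Env) (g : Gm) (e : Ed) :
    fx (sT B ω) g e = xT B (ww g ω) (tt g ω) e := rfl

variable {B : Finset Vx} {w : Ed → ℝ} {T : Vx → Bool}

theorem par_UT (hu : Uq w) {v : Vx} (hv : v ∈ B) : par (UT B w T) v = T v := by
  obtain ⟨Y, hY, -, h, -⟩ := exists_UT (B := B) hu T
  rw [h]
  exact (mem_FT.1 hY).2 v hv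

theorem en_UT_nonneg (hu : Uq w) {C : Finset Ed} (hC : C ⊆ EV B)
    (hp : ∀ v ∈ B, par (ind C) v = false) : 0 ≤ en w (UT B w T) C := by
  obtain ⟨Y, hY, h1, h, -⟩ := exists_UT (B := B) hu T
  rw [h]
  have h2 := HT_le w (FT.symmDiff0 hY hC hp)
  rw [tw_symmDiff_en, h1] at h2
  linarith

/-- energy differences are bounded by the energy of every connecting set -/
theorem HT_le_en (hu : Uq w) {X D : Finset Ed} (hX : X ⊆ EV B)
    (hp : ∀ v ∈ B, par (ind X) v = par (ind D) v) :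
    HT B w (vx T (par (ind D))) - HT B w T ≤ en w (UT B w T) X := by
  obtain ⟨Y, hY, h1, h, -⟩ := exists_UT (B := B) hu T
  rw [h]
  have h2 := HT_le w (FT.symmDiff hY hX hp)
  rw [tw_symmDiff_en] at h2
  rw [h1]
  linarith

theorem gap_UT (hu : Uq w) {X D : Finset Ed} (hX : X ⊆ EV B)
    (hp : ∀ v ∈ B, par (ind X) v = par (ind D) v) {f : Ed}
    (hf : bx (bx (UT B w (vx T (par (ind D)))) (UT B w T)) (ind X) f = true) :
    xT B w (vx T (par (ind D))) f ≤
      en w (UT B w T) X - (HT B w (vx T (par (ind D))) - HT B w T) := by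
  obtain ⟨Y, hY, h1, h, -⟩ := exists_UT (B := B) hu T
  have hZ := FT.symmDiff hY hX hp
  have hne : ind (Y ∆ X) f ≠ UT B w (vx T (par (ind D))) f := by
    rw [ind_symmDiff]
    rw [h] at hf
    unfold bx at hf ⊢
    revert hf
    cases UT B w (vx T (par (ind D))) f <;> cases ind Y f <;> cases ind X f <;> simp
  have h2 := le_tw_of_ne hu hZ hne
  rw [tw_symmDiff_en] at h2
  rw [h, h1]
  linarith

theorem UT_upd (hu : Uq w) {e : Ed} {x : ℝ} (hx : |x - w e| < xT B w T e) :
    UT B (upd w e x) T = UT B w T := by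
  obtain ⟨Y, hY, h1, h, hst⟩ := exists_UT (B := B) hu T
  have key : ∀ Z ∈ FT B T, Z ≠ Y → tw (upd w e x) Y < tw (upd w e x) Z := by
    intro Z hZ hne
    have h2 := hst Z hZ hne
    rw [tw_upd, tw_upd]
    by_cases hs : ind Z e = ind Y e
    · rw [hs]; linarith
    · have h3 := le_tw_of_ne hu hZ (e := e) (by rw [h]; exact hs)
      rw [h1] at h3
      have h4 := abs_lt.1 hx
      have h5 := xT_nonneg B w T e
      split_ifs <;> linarith [h4.1, h4.2]
  rw [(UT_eq hY key).2, h]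

theorem tw_symmDiff_inter (w : Ed → ℝ) (X A : Finset Ed) :
    tw w (X ∆ A) = tw w X + tw w A - 2 * tw w (X ∩ A) := by
  classical
  have h1 : X ∆ A = (X \ A) ∪ (A \ X) := rfl
  have h2 : Disjoint (X \ A) (A \ X) := by
    rw [Finset.disjoint_left]
    intro a ha hb
    exact (Finset.mem_sdiff.1 ha).2 (Finset.mem_sdiff.1 hb).1
  unfold tw
  rw [h1, Finset.sum_union h2]
  have h3 : ∑ e ∈ X, w e = ∑ e ∈ X ∩ A, w e + ∑ e ∈ X \ A, w e :=
    (Finset.sum_inter_add_sum_sdiff X A w).symm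
  have h4 : ∑ e ∈ A, w e = ∑ e ∈ X ∩ A, w e + ∑ e ∈ A \ X, w e := by
    rw [Finset.inter_comm]
    exact (Finset.sum_inter_add_sum_sdiff A X w).symm
  rw [h3, h4]
  ring

theorem tw_change {w w' : Ed → ℝ} {A : Finset Ed} (hw : ∀ e, e ∉ A → w' e = w e) (X : Finset Ed) :
    tw w' X = tw w X + ∑ e ∈ X ∩ A, (w' e - w e) := by
  classical
  unfold tw
  have h3 : ∀ v : Ed → ℝ, ∑ e ∈ X, v e = ∑ e ∈ X ∩ A, v e + ∑ e ∈ X \ A, v e := fun v =>
    (Finset.sum_inter_add_sum_sdiff X A v).symm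
  have h4 : ∑ e ∈ X \ A, w' e = ∑ e ∈ X \ A, w e :=
    Finset.sum_congr rfl fun e he => hw e (Finset.mem_sdiff.1 he).2
  rw [h3 w', h3 w, h4, Finset.sum_sub_distrib]
  ring

/-- comparison of energies after raising the weights on `A` -/
theorem raise_key {w w' : Ed → ℝ} {A A₁ : Finset Ed} {K : ℝ} (hw : ∀ e, e ∉ A → w' e = w e)
    (hr : ∀ e ∈ A, w e + K < w' e) (hK : 0 ≤ K) (hp : ∀ e ∈ A, 0 < w e) (hA : A₁ ⊆ A)
    {Y : Finset Ed} (hY : ∀ e ∈ A, ind Y e = decide (e ∈ A₁)) (X' : Finset Ed) :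
    tw w (X' ∆ A₁) - tw w Y ≤ tw w' X' - tw w' (Y ∆ A₁) ∧
      ((∃ e ∈ A, e ∈ X') → tw w (X' ∆ A₁) - tw w Y + K < tw w' X' - tw w' (Y ∆ A₁)) := by
  classical
  have hYA : Y ∩ A₁ = A₁ := by
    ext e
    rw [Finset.mem_inter]
    refine ⟨fun h => h.2, fun h => ⟨?_, h⟩⟩
    have := hY e (hA h)
    rw [decide_eq_true h] at this
    exact ind_eq_true.1 this
  have hYA' : (Y ∆ A₁) ∩ A = ∅ := by
    ext e
    simp only [Finset.mem_inter, Finset.notMem_empty, iff_false, not_and]
    intro h h2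
    have := hY e h2
    rcases Finset.mem_symmDiff.1 h with h3 | h3
    · rw [ind_eq_true.2 h3.1] at this
      exact h3.2 (of_decide_eq_true this.symm)
    · rw [decide_eq_true h3.1] at this
      exact h3.2 (ind_eq_true.1 this)
  have e1 : tw w' (Y ∆ A₁) = tw w Y - tw w A₁ := by
    rw [tw_change hw, hYA', Finset.sum_empty, tw_symmDiff_inter, hYA]
    ring
  have e2 : tw w' X' = tw w X' + ∑ e ∈ X' ∩ A, (w' e - w e) := tw_change hw X'
  have e3 : tw w (X' ∆ A₁) = tw w X' + tw w A₁ - 2 * tw w (X' ∩ A₁) := tw_symmDiff_inter _ _ _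
  have h1 : 0 ≤ tw w (X' ∩ A₁) := by
    unfold tw
    exact Finset.sum_nonneg fun e he => (hp e (hA (Finset.mem_inter.1 he).2)).le
  have h2 : ∀ e ∈ X' ∩ A, 0 ≤ w' e - w e := fun e he => by
    have := hr e (Finset.mem_inter.1 he).2
    linarith
  refine ⟨?_, ?_⟩
  · have := Finset.sum_nonneg h2
    linarith
  · rintro ⟨e, he, heX⟩
    have h3 : w' e - w e ≤ ∑ e ∈ X' ∩ A, (w' e - w e) :=
      Finset.single_le_sum (f := fun e => w' e - w e) h2 (Finset.mem_inter.2 ⟨heX, he⟩)
    have := hr e he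
    linarith

theorem ind_decide {Y A₁ : Finset Ed} {e : Ed} : ind (Y ∆ A₁) e = xor (ind Y e) (decide (e ∈ A₁)) := by
  rw [ind_symmDiff]; rfl

/-- raising the weights on `A` -/
theorem raise_UT {w w' : Ed → ℝ} (hu : Uq w) (hu' : Uq w') {A A₁ : Finset Ed} {K : ℝ}
    (hw : ∀ e, e ∉ A → w' e = w e)
    (hr : ∀ e ∈ A, w e + K < w' e) (hK : 0 ≤ K) (hp : ∀ e ∈ A, 0 < w e) (hA : A₁ ⊆ A)
    (hAB : A₁ ⊆ EV B) (hU : ∀ e ∈ A, UT B w T e = decide (e ∈ A₁)) :
    UT B w' (vx T (par (ind A₁))) = bx (UT B w T) (ind A₁) ∧ ∀ S : Vx → Bool,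
      HT B w (vx T S) - HT B w T ≤
        HT B w' (vx (vx T (par (ind A₁))) S) - HT B w' (vx T (par (ind A₁))) ∧
      (HT B w' (vx (vx T (par (ind A₁))) S) - HT B w' (vx T (par (ind A₁))) <
          HT B w (vx T S) - HT B w T + K →
        ∀ e ∈ A, UT B w' (vx (vx T (par (ind A₁))) S) e = UT B w' (vx T (par (ind A₁))) e) := by
  classical
  obtain ⟨Y, hY, h1, h, hst⟩ := exists_UT (B := B) hu T
  rw [h] at hU ⊢
  have hY' : Y ∆ A₁ ∈ FT B (vx T (par (ind A₁))) := FT.symmDiff hY hAB fun v _ => rfl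
  have back : ∀ S : Vx → Bool, ∀ X' ∈ FT B (vx (vx T (par (ind A₁))) S),
      X' ∆ A₁ ∈ FT B (vx T S) := by
    intro S X' hX'
    have h2 := FT.symmDiff hX' hAB (S := par (ind A₁)) fun v _ => rfl
    have h3 : vx (vx (vx T (par (ind A₁))) S) (par (ind A₁)) = vx T S := by
      funext v
      unfold vx
      cases T v <;> cases par (ind A₁) v <;> cases S v <;> rfl
    rwa [h3] at h2
  have hfirst := UT_eq (w := w') hY' (fun Z hZ hne => by
    have hZ' : Z ∆ A₁ ∈ FT B T := by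
      have h2 := back (fun _ => false) Z (by rwa [vx_false])
      rwa [vx_false] at h2
    have h3 : Z ∆ A₁ ≠ Y := by
      intro h4
      apply hne
      rw [← h4, symmDiff_symmDiff_cancel_right]
    have h5 := hst _ hZ' h3
    have h6 := (raise_key hw hr hK hp hA hU Z).1
    linarith)
  refine ⟨by rw [hfirst.2, ind_symmDiff], fun S => ⟨?_, ?_⟩⟩
  · have h2 : HT B w (vx T S) - HT B w T + HT B w' (vx T (par (ind A₁))) ≤
        HT B w' (vx (vx T (par (ind A₁))) S) := by
      refine le_HT fun X' hX' => ?_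
      have h3 := HT_le w (back S X' hX')
      have h4 := (raise_key hw hr hK hp hA hU X').1
      rw [hfirst.1, h1]
      linarith
    linarith
  · intro hlt e he
    obtain ⟨X', hX', h2, h3, -⟩ := exists_UT (B := B) hu' (vx (vx T (par (ind A₁))) S)
    have h4 : ind (Y ∆ A₁) e = false := by
      rw [ind_decide, hU e he]; simp
    rw [hfirst.2, h4, h3]
    by_contra h5
    have h6 : e ∈ X' := ind_eq_true.1 (by simpa using h5)
    have h7 := (raise_key hw hr hK hp hA hU X').2 ⟨e, he, h6⟩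
    have h8 := HT_le w (back S X' hX')
    rw [h2, hfirst.1, h1] at hlt
    linarith

/-- bounds for energy differences -/
theorem abs_hh_le (hu : Uq w) (hw : ∀ e, 0 ≤ w e) {D : Finset Ed} (hD : D ⊆ EV B) :
    |HT B w (vx T (par (ind D))) - HT B w T| ≤ tw w D := by
  rw [abs_le]
  constructor
  · have h1 := HT_le_en (B := B) (T := vx T (par (ind D))) hu hD (D := D) fun v _ => rfl
    rw [vx_assoc, vx_self, vx_false] at h1
    have h2 := en_le_tw hw (UT B w (vx T (par (ind D)))) D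
    linarith
  · have h1 := HT_le_en (B := B) (T := T) hu hD (D := D) fun v _ => rfl
    exact h1.trans (en_le_tw hw _ D)

end Pool.Agent.H49MM
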