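import Pool.Agent.Helper49.MM.Cov

set_option autoImplicit false

/-! Measurability of the finite volume states. -/

namespace Pool.Agent.H49MM

open Pool.Agent.Helper60.TJ Pool.Agent.Helper61.MM MeasureTheory
open scoped symmDiff

theorem measurable_coordT (v : Vx) : Measurable fun T : Vx → Bool => T v := measurable_pi_apply v

theorem measurable_ww (g : Gm) : Measurable (ww g) := by
  refine measurable_pi_lambda _ fun e => ?_
  unfold ww
  by_cases h : e ∈ g.2
  · simp only [h, if_true]
    exact measurable_snd.comp ((measurable_pi_apply e).comp measurable_fst)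
  · simp only [h, if_false]
    exact measurable_fst.comp ((measurable_pi_apply e).comp measurable_fst)

theorem measurable_vx_const (S : Vx → Bool) : Measurable fun T : Vx → Bool => vx T S := by
  refine measurable_pi_lambda _ fun v => ?_
  have h : Measurable fun b : Bool => xor b (S v) := measurable_of_countable _
  exact h.comp (measurable_coordT v)

theorem measurable_tt (g : Gm) : Measurable (tt g) :=
  (measurable_vx_const _).comp measurable_snd

open Classical in
/-- minimum over a finite family -/
noncomputable def mF (F : Finset (Finset Ed)) (w : Ed → ℝ) : ℝ :=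
  if h : F.Nonempty then F.inf' h (tw w) else 0

theorem measurable_twr (R : Finset Ed) : Measurable fun w : Ed → ℝ => tw w R := by
  unfold tw
  exact Finset.measurable_sum _ fun e _ => measurable_pi_apply e

theorem measurable_mF (F : Finset (Finset Ed)) : Measurable (mF F) := by
  classical
  induction F using Finset.induction_on with
  | empty =>
    have : mF ∅ = fun _ => 0 := by
      funext w
      unfold mF
      rw [dif_neg (by simp)]
    rw [this]
    exact measurable_const
  | insert a F ha ih =>
    by_cases hF : F.Nonempty
    · have : mF (insert a F) = fun w => min (tw w a) (mF F w) := by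
        funext w
        unfold mF
        rw [dif_pos (Finset.insert_nonempty a F), dif_pos hF, Finset.inf'_insert hF]
      rw [this]
      exact (measurable_twr a).min ih
    · rw [Finset.not_nonempty_iff_eq_empty] at hF
      subst hF
      have : mF (insert a ∅) = fun w => tw w a := by
        funext w
        unfold mF
        rw [dif_pos (Finset.insert_nonempty a ∅)]
        simp
      rw [this]
      exact measurable_twr a

theorem HT_eq_mF (B : Finset Vx) (w : Ed → ℝ) (T : Vx → Bool) : HT B w T = mF (FT B T) w := by
  unfold HT mF
  rw [dif_pos (FT_nonempty B T)]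

theorem HTb_eq_mF (B : Finset Vx) (w : Ed → ℝ) (T : Vx → Bool) (e : Ed) (b : Bool) :
    HTb B w T e b = if ((FT B T).filter fun Y => ind Y e = b).Nonempty
      then mF ((FT B T).filter fun Y => ind Y e = b) w else mF (FT B T) w + 1 := by
  classical
  unfold HTb
  by_cases h : (FTb B T e b).Nonempty
  · rw [dif_pos h]
    have h' : ((FT B T).filter fun Y => ind Y e = b).Nonempty := h
    rw [if_pos h']
    unfold mF
    rw [dif_pos h']
    rfl
  · rw [dif_neg h]
    have h' : ¬ ((FT B T).filter fun Y => ind Y e = b).Nonempty := h
    rw [if_neg h', HT_eq_mF]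

theorem FT_congr {B : Finset Vx} {T T' : Vx → Bool} (h : ∀ v ∈ B, T v = T' v) :
    FT B T = FT B T' := by
  ext X
  rw [mem_FT, mem_FT]
  refine and_congr_right fun _ => forall_congr' fun v => ?_
  refine forall_congr' fun hv => ?_
  rw [h v hv]

instance : MeasurableSpace (Finset (Finset Ed)) := ⊤

instance : MeasurableSingletonClass (Finset (Finset Ed)) := ⟨fun _ => trivial⟩

theorem measurable_FT (B : Finset Vx) : Measurable (FT B) := by
  refine measurable_to_countable' fun F => ?_
  -- the family depends on finitely many coordinates
  have h : FT B ⁻¹' {F} = ⋃ S ∈ {S ∈ B.powerset | FT B (indV S) = F},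
      {T : Vx → Bool | ∀ v ∈ B, T v = indV S v} := by
    ext T
    simp only [Set.mem_preimage, Set.mem_singleton_iff, Set.mem_iUnion, exists_prop,
      Set.mem_ofPred_eq, Finset.mem_filter]
    constructor
    · intro hT
      refine ⟨B.filter fun v => T v = true, ⟨Finset.mem_powerset.2 (Finset.filter_subset _ _), ?_⟩,
        fun v hv => ?_⟩
      · rw [← hT]
        refine FT_congr fun v hv => ?_
        unfold indV
        cases h : T v <;> simp [h, hv]
      · unfold indV
        cases h : T v <;> simp [h, hv]
    · rintro ⟨S, ⟨-, hS⟩, hT⟩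
      rw [← hS]
      exact FT_congr hT
  rw [h]
  refine Finset.measurableSet_biUnion _ fun S _ => ?_
  have h2 : {T : Vx → Bool | ∀ v ∈ B, T v = indV S v} =
      ⋂ v ∈ B, {T : Vx → Bool | T v = indV S v} := by
    ext T; simp
  rw [h2]
  exact Finset.measurableSet_biInter _ fun v _ =>
    (measurable_coordT v) (measurableSet_singleton _)

theorem measurable_HT (B : Finset Vx) :
    Measurable fun q : (Ed → ℝ) × (Vx → Bool) => HT B q.1 q.2 := by
  have h1 : Measurable fun p : (Ed → ℝ) × Finset (Finset Ed) => mF p.2 p.1 :=
    measurable_from_prod_countable_left fun F => measurable_mF F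
  have h2 : Measurable fun q : (Ed → ℝ) × (Vx → Bool) => (q.1, FT B q.2) :=
    measurable_fst.prodMk ((measurable_FT B).comp measurable_snd)
  have h3 := h1.comp h2
  have h4 : (fun q : (Ed → ℝ) × (Vx → Bool) => HT B q.1 q.2) =
      (fun p : (Ed → ℝ) × Finset (Finset Ed) => mF p.2 p.1) ∘
        fun q : (Ed → ℝ) × (Vx → Bool) => (q.1, FT B q.2) := by
    funext q
    exact HT_eq_mF B q.1 q.2
  rw [h4]
  exact h3

theorem measurable_HTb (B : Finset Vx) (e : Ed) (b : Bool) :
    Measurable fun q : (Ed → ℝ) × (Vx → Bool) => HTb B q.1 q.2 e b := by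
  classical
  have h1 : Measurable fun p : (Ed → ℝ) × Finset (Finset Ed) =>
      if (p.2.filter fun Y => ind Y e = b).Nonempty
      then mF (p.2.filter fun Y => ind Y e = b) p.1 else mF p.2 p.1 + 1 := by
    refine measurable_from_prod_countable_left fun F => ?_
    simp only
    by_cases h : (F.filter fun Y => ind Y e = b).Nonempty
    · simp only [h, if_true]
      exact measurable_mF _
    · simp only [h, if_false]
      exact (measurable_mF _).add_const 1
  have h2 : Measurable fun q : (Ed → ℝ) × (Vx → Bool) => (q.1, FT B q.2) :=
    measurable_fst.prodMk ((measurable_FT B).comp measurable_snd)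
  have h3 := h1.comp h2
  have h4 : (fun q : (Ed → ℝ) × (Vx → Bool) => HTb B q.1 q.2 e b) =
      (fun p : (Ed → ℝ) × Finset (Finset Ed) =>
        if (p.2.filter fun Y => ind Y e = b).Nonempty
        then mF (p.2.filter fun Y => ind Y e = b) p.1 else mF p.2 p.1 + 1) ∘
        fun q : (Ed → ℝ) × (Vx → Bool) => (q.1, FT B q.2) := by
    funext q
    exact HTb_eq_mF B q.1 q.2 e b
  rw [h4]
  exact h3

theorem measurable_UT (B : Finset Vx) :
    Measurable fun q : (Ed → ℝ) × (Vx → Bool) => UT B q.1 q.2 := by
  refine measurable_pi_lambda _ fun e => ?_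
  refine measurable_to_countable' fun b => ?_
  have h : MeasurableSet {q : (Ed → ℝ) × (Vx → Bool) | HTb B q.1 q.2 e true < HTb B q.1 q.2 e false} :=
    measurableSet_lt (measurable_HTb B e true) (measurable_HTb B e false)
  cases b
  · refine (MeasurableSet.congr h.compl ?_)
    ext q
    simp [UT]
  · refine (MeasurableSet.congr h ?_)
    ext q
    simp [UT]

theorem measurable_xT (B : Finset Vx) :
    Measurable fun q : (Ed → ℝ) × (Vx → Bool) => xT B q.1 q.2 := by
  refine measurable_pi_lambda _ fun e => ?_
  unfold xT
  exact measurable_const.min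
    (measurable_norm.comp ((measurable_HTb B e true).sub (measurable_HTb B e false)))

/-- the states as a function of weights and frustrated plaquettes -/
noncomputable def s0 (B : Finset Vx) (q : WT) : St :=
  (UT B q.1 q.2, fun D => HT B q.1 (vx q.2 (par (ind D))) - HT B q.1 q.2, xT B q.1 q.2)

theorem measurable_HT_vx (B : Finset Vx) (S : Vx → Bool) :
    Measurable fun q : WT => HT B q.1 (vx q.2 S) := by
  have h3 : Measurable fun q : WT => HT B q.1 q.2 := measurable_HT B
  have h4 : Measurable fun q : WT => (q.1, vx q.2 S) :=
    measurable_fst.prodMk ((measurable_vx_const _).comp measurable_snd)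
  have h := h3.comp h4
  have h2 : (fun q : WT => HT B q.1 q.2) ∘ (fun q : WT => (q.1, vx q.2 S)) =
      fun q : WT => HT B q.1 (vx q.2 S) := by
    funext q
    simp only [Function.comp]
  rw [h2] at h
  exact h

theorem measurable_s0 (B : Finset Vx) : Measurable (s0 B) := by
  have h1 : Measurable fun q : WT => UT B q.1 q.2 := measurable_UT B
  have h2 : Measurable fun q : WT => xT B q.1 q.2 := measurable_xT B
  have h3 : Measurable fun q : WT => HT B q.1 q.2 := measurable_HT B
  have h6 : Measurable fun (q : WT) (D : Finset Ed) =>
      HT B q.1 (vx q.2 (par (ind D))) - HT B q.1 q.2 :=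
    measurable_pi_lambda _ fun D => (measurable_HT_vx B (par (ind D))).sub h3
  exact h1.prodMk (h6.prodMk h2)

theorem sT_apply (B : Finset Vx) (ω : Env) (g : Gm) : sT B ω g = s0 B (ww g ω, tt g ω) := rfl

theorem measurable_sT (B : Finset Vx) : Measurable (sT B) := by
  refine measurable_pi_lambda _ fun g => ?_
  have h : Measurable fun ω : Env => ((ww g ω, tt g ω) : WT) :=
    (measurable_ww g).prodMk (measurable_tt g)
  have h3 := (measurable_s0 B).comp h
  have h2 : (fun ω : Env => sT B ω g) = s0 B ∘ fun ω : Env => ((ww g ω, tt g ω) : WT) := by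
    funext ω
    exact sT_apply B ω g
  rw [h2]
  exact h3

end Pool.Agent.H49MM
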