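import Pool.Agent.Helper49.MM.Meas
import Pool.Agent.Helper60.TJ.A3
import Pool.Agent.Helper66.TJ.Q

set_option autoImplicit false

/-! Laws of the environments, positivity, no ties, flexibility bound. -/

namespace Pool.Agent.H49MM

open Pool.Agent.Helper60.TJ Pool.Agent.Helper61.MM MeasureTheory
open scoped symmDiff ENNReal

instance : IsProbabilityMeasure coin := by
  refine ⟨?_⟩
  unfold coin
  simp only [Measure.smul_apply, Measure.add_apply, measure_univ, smul_eq_mul]
  rw [one_add_one_eq_two, ENNReal.inv_mul_cancel (by norm_num) (by norm_num)]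

theorem coin_not : coin.map (fun b => !b) = coin := by
  have hm : Measurable fun b : Bool => !b := measurable_of_countable _
  unfold coin
  rw [Measure.map_smul, Measure.map_add _ _ hm, Measure.map_dirac' hm, Measure.map_dirac' hm]
  simp only [Bool.not_true, Bool.not_false]
  rw [add_comm]

theorem coin_xor (a : Bool) : coin.map (fun b => xor b a) = coin := by
  cases a
  · simp
  · have : (fun b => xor b true) = fun b => !b := by funext b; cases b <;> rfl
    rw [this, coin_not]

theorem mp_vx (S : Vx → Bool) : MeasurePreserving (fun T : Vx → Bool => vx T S) PT PT := by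
  refine ⟨measurable_vx_const S, ?_⟩
  have h1 := Measure.infinitePi_map_pi (μ := fun _ : Vx => coin)
    (f := fun (v : Vx) (b : Bool) => xor b (S v)) (fun v => measurable_of_countable _)
  refine Eq.trans h1 ?_
  unfold PT
  congr 1
  funext v
  exact coin_xor (S v)

theorem mp_shT (u : Vx) : MeasurePreserving (shT u) PT PT := by
  refine ⟨measurable_pi_lambda _ fun v => measurable_pi_apply _, ?_⟩
  exact Measure.map_infinitePi_infinitePi_of_inj (P := fun _ : Vx => coin)
    (f := fun v : Vx => v + u) (add_left_injective u)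

section

variable (lam : Measure ℝ) [IsProbabilityMeasure lam]

theorem mp_sh2 (u : Vx) : MeasurePreserving (sh u : (Ed → ℝ × ℝ) → (Ed → ℝ × ℝ))
    (Measure.infinitePi fun _ : Ed => lam.prod lam)
    (Measure.infinitePi fun _ : Ed => lam.prod lam) := by
  refine ⟨measurable_pi_lambda _ fun v => measurable_pi_apply _, ?_⟩
  exact Measure.map_infinitePi_infinitePi_of_inj (P := fun _ : Ed => lam.prod lam)
    (f := Helper60.TJ.shE u) (Helper60.TJ.shE u).injective

theorem mp_shE (u : Vx) : MeasurePreserving (Helper61.MM.shE u) (PE lam) (PE lam) :=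
  (mp_sh2 lam u).prod (mp_shT u)

theorem mp_swaps (A : Finset Ed) :
    MeasurePreserving (fun (p : Ed → ℝ × ℝ) e => if e ∈ A then (p e).swap else p e)
      (Measure.infinitePi fun _ : Ed => lam.prod lam)
      (Measure.infinitePi fun _ : Ed => lam.prod lam) := by
  have hm : ∀ e : Ed, Measurable fun x : ℝ × ℝ => if e ∈ A then x.swap else x := by
    intro e
    by_cases h : e ∈ A
    · simp only [h, if_true]; exact measurable_swap
    · simp only [h, if_false]; exact measurable_id
  refine ⟨measurable_pi_lambda _ fun e => (hm e).comp (measurable_pi_apply e), ?_⟩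
  have h1 := Measure.infinitePi_map_pi (μ := fun _ : Ed => lam.prod lam)
    (f := fun (e : Ed) (x : ℝ × ℝ) => if e ∈ A then x.swap else x) hm
  refine Eq.trans h1 ?_
  congr 1
  funext e
  by_cases h : e ∈ A
  · simp only [h, if_true]; exact Measure.prod_swap
  · simp only [h, if_false]; exact Measure.map_id

theorem mp_aE (g : Gm) : MeasurePreserving (aE g) (PE lam) (PE lam) :=
  (mp_swaps lam g.2).prod (mp_vx (Helper61.MM.indV g.1))

theorem mp_ww (g : Gm) : MeasurePreserving (fun p : Ed → ℝ × ℝ => fun e =>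
    if e ∈ g.2 then (p e).2 else (p e).1) (Measure.infinitePi fun _ : Ed => lam.prod lam)
    (PP lam) := by
  have hm : ∀ e : Ed, Measurable fun x : ℝ × ℝ => if e ∈ g.2 then x.2 else x.1 := by
    intro e
    by_cases h : e ∈ g.2
    · simp only [h, if_true]; exact measurable_snd
    · simp only [h, if_false]; exact measurable_fst
  refine ⟨measurable_pi_lambda _ fun e => (hm e).comp (measurable_pi_apply e), ?_⟩
  have h1 := Measure.infinitePi_map_pi (μ := fun _ : Ed => lam.prod lam)
    (f := fun (e : Ed) (x : ℝ × ℝ) => if e ∈ g.2 then x.2 else x.1) hm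
  refine Eq.trans h1 ?_
  unfold PP
  congr 1
  funext e
  by_cases h : e ∈ g.2
  · simp only [h, if_true]; exact Measure.map_snd_prod.trans (by simp)
  · simp only [h, if_false]; exact Measure.map_fst_prod.trans (by simp)

/-- law of weights and frustrated plaquettes after a modification -/
theorem mp_wt (g : Gm) : MeasurePreserving (fun ω : Env => ((ww g ω, tt g ω) : WT)) (PE lam)
    (PB lam) :=
  (mp_ww lam g).prod (mp_vx (Helper61.MM.indV g.1))

theorem ae_pos (hpos : lam (Set.Iic 0) = 0) :
    ∀ᵐ ω ∂(PE lam), ∀ e, 0 < (ω.1 e).1 ∧ 0 < (ω.1 e).2 := by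
  rw [ae_all_iff]
  intro e
  have h0 : ∀ᵐ x ∂lam, 0 < x := by
    rw [ae_iff]
    have : {a : ℝ | ¬ 0 < a} = Set.Iic 0 := by ext; simp
    rw [this]; exact hpos
  have h1 : ∀ᵐ x ∂(lam.prod lam), 0 < x.1 ∧ 0 < x.2 :=
    (Measure.quasiMeasurePreserving_fst.ae h0).and (Measure.quasiMeasurePreserving_snd.ae h0)
  have h2 : MeasurePreserving (fun ω : Env => ω.1 e) (PE lam) (lam.prod lam) :=
    (measurePreserving_eval_infinitePi (fun _ : Ed => lam.prod lam) e).comp
      measurePreserving_fst
  exact h2.quasiMeasurePreserving.ae h1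

theorem ae_nt (hpos : lam (Set.Iic 0) = 0) (hat : ∀ x : ℝ, lam {x} = 0) :
    ∀ᵐ ω ∂(PE lam), ∀ g : Gm, NT (ww g ω) := by
  rw [ae_all_iff]
  intro g
  have h1 : ∀ᵐ J ∂(PP lam), NT (wt J) := (ae_basic lam hat).mono fun J hJ => hJ.2
  have h2 : MeasurePreserving (ww g) (PE lam) (PP lam) :=
    (mp_ww lam g).comp measurePreserving_fst
  have h3 := h2.quasiMeasurePreserving.ae h1
  filter_upwards [h3, ae_pos lam hpos] with ω h4 h5
  have h6 : wt (ww g ω) = ww g ω := by
    funext e
    unfold wt
    apply abs_of_nonneg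
    unfold ww
    split_ifs
    · exact (h5 e).2.le
    · exact (h5 e).1.le
  rwa [h6] at h4

end

/-! ### small intervals -/

theorem unif_small {lam : Measure ℝ} [IsFiniteMeasure lam] (hat : ∀ x : ℝ, lam {x} = 0) {s : ℝ≥0∞}
    (hs : 0 < s) : ∃ δ : ℝ, 0 < δ ∧ ∀ c, lam (Metric.closedBall c δ) ≤ s := by
  have hs2 : 0 < s / 2 := ENNReal.half_pos hs.ne'
  obtain ⟨K, hK, hKs⟩ := (isTightMeasureSet_iff_exists_isCompact_measure_compl_le.1
    (isTightMeasureSet_singleton (μ := lam))) (s / 2) hs2
  have hx : ∀ x : ℝ, ∃ r : ℝ, 0 < r ∧ lam (Metric.ball x r) ≤ s / 2 := by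
    intro x
    have h1 : Filter.Tendsto (fun n : ℕ => lam (Metric.closedBall x (1 / ((n : ℝ) + 1))))
        Filter.atTop (nhds (lam (⋂ n : ℕ, Metric.closedBall x (1 / ((n : ℝ) + 1))))) := by
      apply tendsto_measure_iInter_atTop
      · intro n; exact Metric.isClosed_closedBall.measurableSet.nullMeasurableSet
      · intro n m hnm
        apply Metric.closedBall_subset_closedBall
        apply one_div_le_one_div_of_le
        · positivity
        · have : (n : ℝ) ≤ m := by exact_mod_cast hnm
          linarith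
      · exact ⟨0, measure_ne_top _ _⟩
    have h2 : (⋂ n : ℕ, Metric.closedBall x (1 / ((n : ℝ) + 1))) = {x} := by
      ext y
      simp only [Set.mem_iInter, Metric.mem_closedBall, Set.mem_singleton_iff]
      constructor
      · intro h
        by_contra hne
        have hd : 0 < dist y x := dist_pos.2 hne
        obtain ⟨n, hn⟩ := exists_nat_one_div_lt hd
        exact absurd (h n) (not_le.2 hn)
      · rintro rfl n
        rw [dist_self]
        positivity
    rw [h2, hat x] at h1
    obtain ⟨n, hn⟩ := (h1.eventually_lt_const hs2).exists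
    exact ⟨1 / ((n : ℝ) + 1), by positivity, (measure_mono Metric.ball_subset_closedBall).trans hn.le⟩
  choose r hr1 hr2 using hx
  obtain ⟨δ, hδ, hcov⟩ := lebesgue_number_lemma_of_metric hK
    (c := fun x : ℝ => Metric.ball x (r x)) (fun x => Metric.isOpen_ball)
    (fun x _ => Set.mem_iUnion.2 ⟨x, Metric.mem_ball_self (hr1 x)⟩)
  refine ⟨δ / 4, by positivity, fun c => ?_⟩
  have hKs' : lam Kᶜ ≤ s / 2 := hKs lam rfl
  by_cases hne : (Metric.closedBall c (δ / 4) ∩ K).Nonempty
  · obtain ⟨y, hy, hyK⟩ := hne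
    obtain ⟨i, hi⟩ := hcov y hyK
    have hsub : Metric.closedBall c (δ / 4) ⊆ Metric.ball y δ := by
      intro z hz
      rw [Metric.mem_closedBall] at hz hy
      rw [Metric.mem_ball]
      have := dist_triangle z c y
      rw [dist_comm c y] at this
      linarith
    exact ((measure_mono (hsub.trans hi)).trans (hr2 i)).trans ENNReal.half_le_self
  · have hsub : Metric.closedBall c (δ / 4) ⊆ Kᶜ := by
      intro z hz hzK
      exact hne ⟨z, hz, hzK⟩
    exact ((measure_mono hsub).trans hKs').trans ENNReal.half_le_self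

/-! ### flexibilities -/

/-- the critical value of the weight of `e` -/
noncomputable def cT (B : Finset Vx) (w : Ed → ℝ) (T : Vx → Bool) (e : Ed) : ℝ :=
  HTb B (upd w e 0) T e false - HTb B (upd w e 0) T e true

theorem HTb_upd {B : Finset Vx} {e : Ed} (he : e ∈ EV B) (w : Ed → ℝ) (T : Vx → Bool) (x : ℝ)
    (b : Bool) : HTb B (upd w e x) T e b = HTb B w T e b + if b = true then x - w e else 0 := by
  have hne : (FTb B T e b).Nonempty := FTb_nonempty he
  unfold HTb
  rw [dif_pos hne, dif_pos hne]
  have h1 : ∀ Z ∈ FTb B T e b, tw (upd w e x) Z = tw w Z + if b = true then x - w e else 0 := by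
    intro Z hZ
    rw [tw_upd, (mem_FTb.1 hZ).2]
  apply le_antisymm
  · obtain ⟨Z, hZ, hZe⟩ := Finset.exists_mem_eq_inf' hne (tw w)
    rw [hZe, ← h1 Z hZ]
    exact Finset.inf'_le _ hZ
  · refine Finset.le_inf' _ _ fun Z hZ => ?_
    rw [h1 Z hZ]
    have := Finset.inf'_le (tw w) hZ
    linarith

theorem xT_upd {B : Finset Vx} {e : Ed} (he : e ∈ EV B) (w : Ed → ℝ) (T : Vx → Bool) (x : ℝ) :
    xT B (upd w e x) T e = min 1 |x - cT B w T e| := by
  unfold xT cT
  congr 1
  have h1 : upd w e x = upd (upd w e 0) e x := by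
    unfold upd; rw [Function.update_idem]
  have h0 : upd w e 0 e = 0 := by unfold upd; rw [Function.update_self]
  rw [h1, HTb_upd he (upd w e 0) T x true, HTb_upd he (upd w e 0) T x false, h0]
  simp only [if_true, Bool.false_eq_true, if_false]
  congr 1
  ring

theorem measurable_upd0 (e : Ed) : Measurable fun w : Ed → ℝ => upd w e 0 := by
  refine measurable_pi_lambda _ fun f => ?_
  unfold upd
  by_cases h : f = e
  · subst h; simp only [Function.update_self]; exact measurable_const
  · simp only [Function.update_of_ne h]; exact measurable_pi_apply f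

theorem xT_small_T {lam : Measure ℝ} [IsProbabilityMeasure lam] {δ : ℝ} (hδ1 : δ < 1) {s : ℝ≥0∞}
    (h : ∀ c, lam (Metric.closedBall c δ) ≤ s) {B : Finset Vx} {e : Ed} (he : e ∈ EV B)
    (T : Vx → Bool) : PP lam {w | xT B w T e ≤ δ} ≤ s := by
  have hx : Measurable fun w : Ed → ℝ => xT B w T e := by
    have h1 : Measurable fun w : Ed → ℝ => ((w, T) : WT) := measurable_id.prodMk measurable_const
    exact (measurable_pi_apply e).comp ((measurable_xT B).comp h1)
  have hm : MeasurableSet {w : Ed → ℝ | xT B w T e ≤ δ} := measurableSet_le hx measurable_const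
  rw [← (mp_upd lam e).map_eq, Measure.map_apply (measurable_upd e) hm,
    Measure.prod_apply ((measurable_upd e) hm)]
  calc ∫⁻ w, lam (Prod.mk w ⁻¹' ((fun q : (Ed → ℝ) × ℝ => upd q.1 e q.2) ⁻¹'
        {w | xT B w T e ≤ δ})) ∂(PP lam) ≤ ∫⁻ _, s ∂(PP lam) := by
        refine lintegral_mono fun w => ?_
        refine (measure_mono ?_).trans (h (cT B w T e))
        intro x hx
        have h2 : xT B (upd w e x) T e ≤ δ := hx
        rw [xT_upd he] at h2
        rw [Metric.mem_closedBall, Real.dist_eq]
        rcases min_le_iff.1 h2 with h3 | h3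
        · linarith
        · exact h3
    _ = s := by simp

theorem xT_small {lam : Measure ℝ} [IsProbabilityMeasure lam] {δ : ℝ} (hδ1 : δ < 1) {s : ℝ≥0∞}
    (h : ∀ c, lam (Metric.closedBall c δ) ≤ s) {B : Finset Vx} {e : Ed} (he : e ∈ EV B) (g : Gm) :
    PE lam {ω | xT B (ww g ω) (tt g ω) e ≤ δ} ≤ s := by
  have hx : Measurable fun q : WT => xT B q.1 q.2 e :=
    (measurable_pi_apply e).comp (measurable_xT B)
  have hm : MeasurableSet {q : WT | xT B q.1 q.2 e ≤ δ} := measurableSet_le hx measurable_const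
  have h1 := (mp_wt lam g).measure_preimage hm.nullMeasurableSet
  have h2 : (fun ω : Env => ((ww g ω, tt g ω) : WT)) ⁻¹' {q : WT | xT B q.1 q.2 e ≤ δ} =
      {ω | xT B (ww g ω) (tt g ω) e ≤ δ} := rfl
  rw [h2] at h1
  rw [h1]
  unfold PB
  rw [Measure.prod_apply_symm hm]
  calc ∫⁻ T, PP lam ((fun w => (w, T)) ⁻¹' {q : WT | xT B q.1 q.2 e ≤ δ}) ∂PT
      ≤ ∫⁻ _, s ∂PT := lintegral_mono fun T => xT_small_T hδ1 h he T
    _ = s := by simp

end Pool.Agent.H49MM
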