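import Pool.Agent.Helper49.MS.WL

set_option autoImplicit false

/-! Weak limits: real test functions, products. -/

open MeasureTheory Filter Topology Set BoundedContinuousFunction
open scoped ENNReal NNReal

namespace Pool.Agent.H49WL

section Gen

variable {Ω : Type*} [TopologicalSpace Ω] [MeasurableSpace Ω] [OpensMeasurableSpace Ω]

theorem Lim.integral {m : ℕ → Measure Ω} {U : Ultrafilter ℕ} {Q : Measure Ω}
    (hm : ∀ n, IsProbabilityMeasure (m n)) [hQ : IsProbabilityMeasure Q] (h : Lim m U Q)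
    (f : Ω →ᵇ ℝ) : Tendsto (fun n => ∫ x, f x ∂(m n)) U (𝓝 (∫ x, f x ∂Q)) := by
  let M : ℕ → ProbabilityMeasure Ω := fun n => ⟨m n, hm n⟩
  let Q' : ProbabilityMeasure Ω := ⟨Q, hQ⟩
  have h1 : Tendsto M U (𝓝 Q') := by
    rw [ProbabilityMeasure.tendsto_iff_forall_lintegral_tendsto]
    exact fun f => h f
  exact (ProbabilityMeasure.tendsto_iff_forall_integral_tendsto.1 h1) f

end Gen

section Prod

variable {Z T : Type*} [TopologicalSpace Z] [MeasurableSpace Z] [BorelSpace Z]
  [HasOuterApproxClosed Z] [TopologicalSpace T] [MeasurableSpace T] [BorelSpace T]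
  [HasOuterApproxClosed T] [OpensMeasurableSpace (Z × T)]

/-- products with a fixed first factor -/
theorem Lim.prod_eq {m : ℕ → Measure (Z × T)} {U : Ultrafilter ℕ} {Q : Measure (Z × T)}
    (hm : ∀ n, IsProbabilityMeasure (m n)) [hQ : IsProbabilityMeasure Q] (h : Lim m U Q)
    {P : Measure Z} [IsProbabilityMeasure P]
    (hp : ∀ᶠ n in (U : Filter ℕ), m n = P.prod ((m n).map Prod.snd)) :
    Q = P.prod (Q.map Prod.snd) := by
  have : IsProbabilityMeasure (Q.map Prod.snd) :=
    Measure.isProbabilityMeasure_map measurable_snd.aemeasurable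
  have : ∀ n, IsProbabilityMeasure ((m n).map Prod.snd) := fun n =>
    have := hm n
    Measure.isProbabilityMeasure_map measurable_snd.aemeasurable
  refine Measure.eq_prod_of_integral_mul_boundedContinuousFunction fun f g => ?_
  have h1 := h.integral hm
    ((f.compContinuous ⟨Prod.fst, continuous_fst⟩) * (g.compContinuous ⟨Prod.snd, continuous_snd⟩))
  have h2 := h.integral hm (g.compContinuous ⟨Prod.snd, continuous_snd⟩)
  have e2 : ∀ ν : Measure (Z × T), ∫ x, g x ∂(ν.map Prod.snd) = ∫ p, g p.2 ∂ν := by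
    intro ν
    exact integral_map measurable_snd.aemeasurable g.continuous.aestronglyMeasurable
  have h3 : Tendsto (fun n => (∫ z, f z ∂P) * ∫ p, g p.2 ∂(m n)) U
      (𝓝 ((∫ z, f z ∂P) * ∫ p, g p.2 ∂Q)) := h2.const_mul _
  have h4 : ∀ᶠ n in (U : Filter ℕ), ∫ p, f p.1 * g p.2 ∂(m n) =
      (∫ z, f z ∂P) * ∫ p, g p.2 ∂(m n) := by
    filter_upwards [hp] with n hn
    rw [← e2 (m n)]
    calc ∫ p, f p.1 * g p.2 ∂(m n) = ∫ p, f p.1 * g p.2 ∂(P.prod ((m n).map Prod.snd)) := by
          rw [← hn]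
      _ = (∫ z, f z ∂P) * ∫ x, g x ∂((m n).map Prod.snd) := integral_prod_mul _ _
  rw [e2 Q]
  exact tendsto_nhds_unique_of_eventuallyEq h1 h3 h4

end Prod

end Pool.Agent.H49WL
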