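import Pool.Agent.Helper49.MM.Box
import Pool.Agent.Helper49.MM.WL2

set_option autoImplicit false

/-! Tightness of the averaged laws; continuity of the coordinates. -/

namespace Pool.Agent.H49MM

open Pool.Agent.Helper60.TJ Pool.Agent.Helper61.MM Pool.Agent.H49WL MeasureTheory Filter Topology
open scoped symmDiff ENNReal NNReal

theorem par_inter_EV (B : Finset Vx) (D : Finset Ed) {v : Vx} (hv : v ∈ B) :
    par (ind (D ∩ EV B)) v = par (ind D) v := by
  classical
  have h : ∀ d : Dir, ind (D ∩ EV B) (edg v d) = ind D (edg v d) := by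
    intro d
    unfold ind
    rw [decide_eq_decide, Finset.mem_inter]
    exact ⟨fun h => h.1, fun h => ⟨h, edg_mem_EV hv⟩⟩
  unfold par
  rw [h, h, h, h]

theorem tw_inter_le {w : Ed → ℝ} (hw : ∀ e, 0 ≤ w e) (D E : Finset Ed) :
    tw w (D ∩ E) ≤ tw w D := tw_mono hw Finset.inter_subset_left

/-- energy differences are bounded, in every volume -/
theorem abs_hh_le' {B : Finset Vx} {w : Ed → ℝ} {T : Vx → Bool} (hu : Uq w) (hw : ∀ e, 0 ≤ w e)
    (D : Finset Ed) : |HT B w (vx T (par (ind D))) - HT B w T| ≤ tw w D := by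
  have hX : D ∩ EV B ⊆ EV B := Finset.inter_subset_right
  rw [abs_le]
  constructor
  · have h1 := HT_le_en (B := B) (T := vx T (par (ind D))) hu hX (D := D)
      fun v hv => par_inter_EV B D hv
    rw [vx_assoc, vx_self, vx_false] at h1
    have h2 := en_le_tw hw (UT B w (vx T (par (ind D)))) (D ∩ EV B)
    have h3 := tw_inter_le hw D (EV B)
    linarith
  · have h1 := HT_le_en (B := B) (T := T) hu hX (D := D) fun v hv => par_inter_EV B D hv
    have h2 := en_le_tw hw (UT B w T) (D ∩ EV B)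
    have h3 := tw_inter_le hw D (EV B)
    linarith

/-- good environments -/
def Gd (ω : Env) : Prop := (∀ e, 0 < (ω.1 e).1 ∧ 0 < (ω.1 e).2) ∧ ∀ g : Gm, NT (ww g ω)

theorem Gd.pos {ω : Env} (h : Gd ω) (g : Gm) (e : Ed) : 0 < ww g ω e := by
  unfold ww
  split_ifs
  · exact (h.1 e).2
  · exact (h.1 e).1

theorem Gd.uq {ω : Env} (h : Gd ω) (g : Gm) : Uq (ww g ω) := uq_of_NT (h.2 g)

theorem ae_Gd (lam : Measure ℝ) [IsProbabilityMeasure lam] (hpos : lam (Set.Iic 0) = 0)
    (hat : ∀ x : ℝ, lam {x} = 0) : ∀ᵐ ω ∂(PE lam), Gd ω :=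
  (ae_pos lam hpos).and (ae_nt lam hpos hat)

theorem exists_large {Ω : Type*} [MeasurableSpace Ω] (P : Measure Ω) [IsFiniteMeasure P] {f : Ω → ℝ}
    (hf : Measurable f) {δ : ℝ≥0∞} (hδ : 0 < δ) : ∃ R : ℝ, P {ω | R < f ω} ≤ δ := by
  have h1 : Tendsto (fun n : ℕ => P {ω | (n : ℝ) < f ω}) atTop
      (𝓝 (P (⋂ n : ℕ, {ω | (n : ℝ) < f ω}))) := by
    apply tendsto_measure_iInter_atTop
    · intro n
      exact (measurableSet_lt measurable_const hf).nullMeasurableSet
    · intro n m hnm ω hω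
      have h2 : (n : ℝ) ≤ m := by exact_mod_cast hnm
      exact lt_of_le_of_lt h2 hω
    · exact ⟨0, measure_ne_top _ _⟩
  have h2 : (⋂ n : ℕ, {ω | (n : ℝ) < f ω}) = ∅ := by
    ext ω
    simp only [Set.mem_iInter, Set.mem_ofPred_eq, Set.mem_empty_iff_false, iff_false, not_forall,
      not_lt]
    exact exists_nat_ge (f ω)
  rw [h2, measure_empty] at h1
  obtain ⟨n, hn⟩ := (h1.eventually_lt_const hδ).exists
  exact ⟨n, hn.le⟩

theorem tight_mN (lam : Measure ℝ) [IsProbabilityMeasure lam] (hpos : lam (Set.Iic 0) = 0)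
    (hat : ∀ x : ℝ, lam {x} = 0) : IsTightMeasureSet (Set.range (mN lam)) := by
  classical
  rw [isTightMeasureSet_iff_exists_isCompact_measure_compl_le]
  intro ε hε
  have hε2 : 0 < ε / 2 := ENNReal.half_pos hε.ne'
  obtain ⟨K, hK, hKε⟩ := (isTightMeasureSet_iff_exists_isCompact_measure_compl_le.1
    (isTightMeasureSet_singleton (μ := PE lam))) (ε / 2) hε2
  have hKε' : PE lam Kᶜ ≤ ε / 2 := hKε _ rfl
  obtain ⟨δ, hδ1, hδ2⟩ := ENNReal.exists_pos_sum_of_countable' hε2.ne' (Gm × Finset Ed)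
  have hR : ∀ q : Gm × Finset Ed, ∃ R : ℝ, PE lam {ω | R < tw (ww q.1 ω) q.2} ≤ δ q := fun q =>
    exists_large (PE lam) ((measurable_twr q.2).comp (measurable_ww q.1)) (hδ1 q)
  choose R hR using hR
  set C : Gm → Set St := fun g => (Set.univ : Set (Ed → Bool)) ×ˢ
    ((Set.univ.pi fun D : Finset Ed => Set.Icc (-(R (g, D))) (R (g, D))) ×ˢ
      (Set.univ.pi fun _ : Ed => Set.Icc (0 : ℝ) 1)) with hC
  have hCc : ∀ g, IsCompact (C g) := fun g =>
    isCompact_univ.prod ((isCompact_univ_pi fun D => isCompact_Icc).prod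
      (isCompact_univ_pi fun _ => isCompact_Icc))
  have hKc : IsCompact (K ×ˢ Set.univ.pi C) := hK.prod (isCompact_univ_pi hCc)
  refine ⟨K ×ˢ Set.univ.pi C, hKc, ?_⟩
  rintro _ ⟨n, rfl⟩
  refine mN_le lam fun u _ => ?_
  set B := vol n u
  unfold lw
  rw [Measure.map_apply (measurable_gr B) hKc.measurableSet.compl]
  have hsub : ∀ᵐ ω ∂(PE lam), ω ∈ (fun ω : Env => (ω, sT B ω)) ⁻¹' (K ×ˢ Set.univ.pi C)ᶜ →
      ω ∈ Kᶜ ∪ ⋃ q : Gm × Finset Ed, {ω | R q < tw (ww q.1 ω) q.2} := by
    filter_upwards [ae_Gd lam hpos hat] with ω hω h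
    by_contra hcon
    simp only [Set.mem_union, Set.mem_compl_iff, Set.mem_iUnion, not_or, not_not, not_exists,
      Set.mem_ofPred_eq, not_lt] at hcon
    obtain ⟨h1, h2⟩ := hcon
    refine h ⟨h1, fun g _ => ⟨trivial, fun D _ => ?_, fun e _ => ?_⟩⟩
    · have h3 := abs_hh_le' (B := B) (T := tt g ω) (hω.uq g) (fun e => (hω.pos g e).le) D
      exact abs_le.1 (h3.trans (h2 (g, D)))
    · exact ⟨xT_nonneg _ _ _ _, xT_le_one _ _ _ _⟩
  calc PE lam ((fun ω : Env => (ω, sT B ω)) ⁻¹' (K ×ˢ Set.univ.pi C)ᶜ)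
      ≤ PE lam (Kᶜ ∪ ⋃ q : Gm × Finset Ed, {ω | R q < tw (ww q.1 ω) q.2}) :=
        measure_mono_ae hsub
    _ ≤ PE lam Kᶜ + ∑' q : Gm × Finset Ed, PE lam {ω | R q < tw (ww q.1 ω) q.2} :=
        (measure_union_le _ _).trans (by gcongr; exact measure_iUnion_le _)
    _ ≤ ε / 2 + ∑' q : Gm × Finset Ed, δ q := by
        gcongr with q
        exact hR q
    _ ≤ ε / 2 + ε / 2 := by gcongr
    _ = ε := ENNReal.add_halves ε

/-! ### continuity of the coordinates -/

theorem c_ww (g : Gm) (e : Ed) : Continuous fun p : Env × Vl => ww g p.1 e := by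
  unfold ww
  by_cases h : e ∈ g.2
  · simp only [h, if_true]; fun_prop
  · simp only [h, if_false]; fun_prop

theorem c_bool1 (f : Bool → Bool) : Continuous f := continuous_of_discreteTopology

theorem c_tt (g : Gm) (v : Vx) : Continuous fun p : Env × Vl => tt g p.1 v := by
  have h1 : Continuous fun p : Env × Vl => p.1.2 v := by fun_prop
  exact (c_bool1 fun b => xor b (Helper61.MM.indV g.1 v)).comp h1

theorem c_uu (g : Gm) (e : Ed) : Continuous fun p : Env × Vl => uu p.2 g e := by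
  unfold uu; fun_prop

theorem c_hh (g : Gm) (D : Finset Ed) : Continuous fun p : Env × Vl => hh p.2 g D := by
  unfold hh; fun_prop

theorem c_fx (g : Gm) (e : Ed) : Continuous fun p : Env × Vl => fx p.2 g e := by
  unfold fx; fun_prop

theorem c_sg : Continuous sg := continuous_of_discreteTopology

theorem c_en (g : Gm) (X : Finset Ed) :
    Continuous fun p : Env × Vl => en (ww g p.1) (uu p.2 g) X := by
  unfold en
  exact continuous_finsetSum _ fun e _ => (c_ww g e).mul (c_sg.comp (c_uu g e))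

theorem c_par (g : Gm) (v : Vx) : Continuous fun p : Env × Vl => par (uu p.2 g) v := by
  have h : Continuous fun q : (Bool × Bool) × (Bool × Bool) =>
      xor (xor q.1.1 q.1.2) (xor q.2.1 q.2.2) := continuous_of_discreteTopology
  exact h.comp (((c_uu g _).prodMk (c_uu g _)).prodMk ((c_uu g _).prodMk (c_uu g _)))

theorem c_bx2 (g g' : Gm) (X : Finset Ed) (f : Ed) :
    Continuous fun p : Env × Vl => bx (bx (uu p.2 g) (uu p.2 g')) (ind X) f := by
  have h : Continuous fun q : Bool × Bool => xor (xor q.1 q.2) (ind X f) :=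
    continuous_of_discreteTopology
  exact h.comp ((c_uu g f).prodMk (c_uu g' f))

theorem closed_imp {X : Type*} [TopologicalSpace X] {A R : X → Prop} (hA : IsOpen {p | A p})
    (hR : IsClosed {p | R p}) : IsClosed {p | A p → R p} := by
  have : {p | A p → R p} = {p | A p}ᶜ ∪ {p | R p} := by
    ext p
    simp only [Set.mem_ofPred_eq, Set.mem_union, Set.mem_compl_iff]
    tauto
  rw [this]
  exact hA.isClosed_compl.union hR

theorem open_bool {X : Type*} [TopologicalSpace X] {f : X → Bool} (hf : Continuous f) (b : Bool) :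
    IsOpen {p | f p = b} := (isOpen_discrete {b}).preimage hf

theorem closed_and {X : Type*} [TopologicalSpace X] {A R : X → Prop} (hA : IsClosed {p | A p})
    (hR : IsClosed {p | R p}) : IsClosed {p | A p ∧ R p} := hA.inter hR

theorem closed_all {X ι : Type*} [TopologicalSpace X] {A : ι → X → Prop}
    (hA : ∀ i, IsClosed {p | A i p}) : IsClosed {p | ∀ i, A i p} := by
  have : {p | ∀ i, A i p} = ⋂ i, {p | A i p} := by ext; simp
  rw [this]
  exact isClosed_iInter hA

theorem open_all_mem {X ι : Type*} [TopologicalSpace X] {S : Finset ι} {A : ι → X → Prop}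
    (hA : ∀ i, IsOpen {p | A i p}) : IsOpen {p | ∀ i ∈ S, A i p} := by
  have : {p | ∀ i ∈ S, A i p} = ⋂ i ∈ S, {p | A i p} := by ext; simp
  rw [this]
  exact isOpen_biInter_finset fun i _ => hA i

theorem continuous_aP (g : Gm) : Continuous (aP g) := by
  unfold aP aE aV
  refine Continuous.prodMk (Continuous.prodMk ?_ ?_) ?_
  · refine continuous_pi fun e => ?_
    by_cases h : e ∈ g.2
    · simp only [h, if_true]
      exact continuous_swap.comp (by fun_prop)
    · simp only [h, if_false]; fun_prop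
  · exact continuous_pi fun v => c_tt (g.1, ∅) v
  · refine continuous_pi fun g' => ?_
    fun_prop

theorem continuous_shP (u : Vx) : Continuous (shP u) := by
  unfold shP Helper61.MM.shE shV shSt sh shT
  fun_prop

end Pool.Agent.H49MM
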